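import Pool.Agent.BoltzM.Calc.Cube
import Pool.Agent.BoltzM.Herm.Poly

/-! The norms `nA` control all Schwartz seminorms. -/

set_option autoImplicit false

open Filter Topology MeasureTheory SchwartzMap Pool.Agent.BoltzM.BoltzC

noncomputable section

namespace Pool.Agent.BoltzM

variable [Dim]

lemma continuous_ip : Continuous fun p : SV × SV => ip p.1 p.2 := by
  simp only [ip_eq_inner]
  exact ((continuous_toLp.comp continuous_fst).inner (continuous_toLp.comp continuous_snd))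

lemma continuous_nA (m : ℕ) : Continuous (nA m) := by
  unfold nA
  refine continuous_finsetSum _ fun w _ => ?_
  exact continuous_ip.comp ((apW w).continuous.prodMk (apW w).continuous)

lemma nA_smul (m : ℕ) (c : ℝ) (f : SV) : nA m (c • f) = c ^ 2 * nA m f := by
  simp only [nA, map_smul, LinearMap.smul_apply, smul_eq_mul, Finset.mul_sum]
  exact Finset.sum_congr rfl fun w _ => by ring

@[simp] lemma nA_zero_fun (m : ℕ) : nA m 0 = 0 := by simp [nA]

lemma nA_neg (m : ℕ) (f : SV) : nA m (-f) = nA m f := by simp [nA]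

lemma nA_sub_comm (m : ℕ) (f g : SV) : nA m (f - g) = nA m (g - f) := by
  rw [← nA_neg, neg_sub]

/-- `A` loses at most `a` levels in the scale `nA`. -/
def OrdA (a : ℕ) (A : SV →L[ℝ] SV) : Prop :=
  ∀ n, ∃ C : ℝ, 0 < C ∧ ∀ f, nA n (A f) ≤ C * nA (n + a) f

lemma OrdA.id : OrdA 0 (ContinuousLinearMap.id ℝ SV) := fun _ => ⟨1, one_pos, fun f => by simp⟩

lemma OrdA.mono {a b : ℕ} {A : SV →L[ℝ] SV} (h : OrdA a A) (hab : a ≤ b) : OrdA b A := by
  intro n
  obtain ⟨C, hC, h⟩ := h n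
  exact ⟨C, hC, fun f => (h f).trans
    (mul_le_mul_of_nonneg_left (nA_mono (by omega) f) hC.le)⟩

lemma OrdA.comp {a b : ℕ} {A B : SV →L[ℝ] SV} (hA : OrdA a A) (hB : OrdA b B) :
    OrdA (a + b) (A.comp B) := by
  intro n
  obtain ⟨C, hC, h⟩ := hA n
  obtain ⟨D, hD, h'⟩ := hB (n + a)
  refine ⟨C * D, by positivity, fun f => (h _).trans ?_⟩
  rw [mul_assoc, ← add_assoc]
  exact mul_le_mul_of_nonneg_left (h' f) hC.le

lemma OrdA.add {a : ℕ} {A B : SV →L[ℝ] SV} (hA : OrdA a A) (hB : OrdA a B) : OrdA a (A + B) := by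
  intro n
  obtain ⟨C, hC, h⟩ := hA n
  obtain ⟨D, hD, h'⟩ := hB n
  refine ⟨2 * C + 2 * D, by positivity, fun f => ?_⟩
  have := nA_add_le n (A f) (B f)
  have h1 := h f
  have h2 := h' f
  change nA n (A f + B f) ≤ _
  linarith

lemma OrdA.smul {a : ℕ} {A : SV →L[ℝ] SV} (hA : OrdA a A) (c : ℝ) : OrdA a (c • A) := by
  intro n
  obtain ⟨C, hC, h⟩ := hA n
  refine ⟨(c ^ 2 + 1) * C, by positivity, fun f => ?_⟩
  change nA n (c • A f) ≤ _
  rw [nA_smul, mul_assoc]
  have := nA_nonneg n (A f)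
  have h1 := h f
  nlinarith [sq_nonneg c]

lemma OrdA.sub {a : ℕ} {A B : SV →L[ℝ] SV} (hA : OrdA a A) (hB : OrdA a B) : OrdA a (A - B) := by
  have := hA.add (hB.smul (-1))
  rwa [neg_one_smul, ← sub_eq_add_neg] at this

lemma OrdA.sum {ι : Type*} {a : ℕ} (S : Finset ι) {A : ι → SV →L[ℝ] SV}
    (h : ∀ i ∈ S, OrdA a (A i)) : OrdA a (∑ i ∈ S, A i) := by
  classical
  induction S using Finset.induction_on with
  | empty => exact fun n => ⟨1, one_pos, fun f => by simpa using nA_nonneg _ _⟩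
  | insert j S hj ih =>
    rw [Finset.sum_insert hj]
    exact (h j (Finset.mem_insert_self _ _)).add (ih fun i hi => h i (Finset.mem_insert_of_mem hi))

lemma nA_ap_le (n : ℕ) (j : Ix) (f : SV) : nA n (ap j f) ≤ nA (n + 1) f := by
  rw [nA_succ]
  exact Finset.single_le_sum (f := fun j => nA n (ap j f)) (fun _ _ => nA_nonneg _ _)
    (Finset.mem_univ j)

lemma ordA_ap (j : Ix) : OrdA 1 (ap j) :=
  fun n => ⟨1, one_pos, fun f => by simpa using nA_ap_le n j f⟩

lemma ordA_am (j : Ix) : OrdA 1 (am j) := by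
  intro n
  induction n with
  | zero =>
    refine ⟨1, one_pos, fun f => ?_⟩
    rw [nA_zero, one_mul]
    refine (ip_am_le j f).trans ?_
    simpa [nA_zero] using nA_ap_le 0 j f
  | succ n ih =>
    obtain ⟨C, hC, h⟩ := ih
    refine ⟨2 * C + 2 * dd, by positivity, fun f => ?_⟩
    have key : ∀ i, nA n (ap i (am j f)) ≤ 2 * C * nA (n + 1) (ap i f) + 2 * nA (n + 1 + 1) f := by
      intro i
      have e : ap i (am j f) = am j (ap i f) - (if j = i then (1 : ℝ) else 0) • f := by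
        rw [am_ap]; abel
      have h1 := nA_sub_le n (am j (ap i f)) ((if j = i then (1 : ℝ) else 0) • f)
      have h2 := h (ap i f)
      have h3 : nA n ((if j = i then (1 : ℝ) else 0) • f) ≤ nA (n + 1 + 1) f := by
        split_ifs
        · rw [one_smul]; exact nA_mono (by omega) f
        · rw [zero_smul, nA_zero_fun]; exact nA_nonneg _ _
      rw [e]
      linarith
    rw [nA_succ]
    refine (Finset.sum_le_sum fun i _ => key i).trans (le_of_eq ?_)
    rw [Finset.sum_add_distrib, ← Finset.mul_sum, ← nA_succ]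
    simp
    ring

lemma ordA_mulV (j : Ix) : OrdA 1 (mulV j) := by
  have : mulV j = ap j + am j := by ext1 f; exact (ap_add_am j f).symm
  rw [this]
  exact (ordA_ap j).add (ordA_am j)

lemma ordA_dV (j : Ix) : OrdA 1 (dV j) := by
  have : dV j = (1 / 2 : ℝ) • (am j - ap j) := by
    ext1 f
    change _ = (1 / 2 : ℝ) • (am j f - ap j f)
    rw [am_sub_ap, smul_smul]; norm_num
  rw [this]
  exact ((ordA_am j).sub (ordA_ap j)).smul _

lemma ordA_apW (w : List Ix) : OrdA w.length (apW w) := by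
  induction w with
  | nil => exact OrdA.id
  | cons j w ih =>
    rw [List.length_cons, add_comm]
    exact (ordA_ap j).comp ih

lemma OrdA.sqrt {a : ℕ} {A : SV →L[ℝ] SV} (hA : OrdA a A) (n : ℕ) :
    ∃ C : ℝ, 0 < C ∧ ∀ f, √(nA n (A f)) ≤ C * √(nA (n + a) f) := by
  obtain ⟨C, hC, h⟩ := hA n
  refine ⟨√C, Real.sqrt_pos.2 hC, fun f => ?_⟩
  rw [← Real.sqrt_mul hC.le]
  exact Real.sqrt_le_sqrt (h f)

/-- A word in the velocity derivatives; the head is applied first. -/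
def dW : List Ix → SV →L[ℝ] SV
  | [] => ContinuousLinearMap.id ℝ SV
  | i :: u => (dW u).comp (dV i)

lemma dW_concat (u : List Ix) (i : Ix) (f : SV) : dW (u ++ [i]) f = dV i (dW u f) := by
  induction u generalizing f with
  | nil => rfl
  | cons j u ih => exact ih _

lemma ordA_dW (u : List Ix) : OrdA u.length (dW u) := by
  induction u with
  | nil => exact OrdA.id
  | cons j u ih => exact ih.comp (ordA_dV j)

lemma hasDerivAt_line (f : SV) (i : Ix) (x : E) :
    HasDerivAt (fun t : ℝ => f (x + t • ev i)) (dV i f x) 0 :=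
  (f.hasFDerivAt x).hasLineDerivAt (ev i)

/-- Sup bound by the norm of order `dd`. -/
lemma sq_le_nA_three : ∃ C : ℝ, 0 < C ∧ ∀ (f : SV) (x : E), f x ^ 2 ≤ C * nA dd f := by
  have hb : ∀ u : List Ix, ∃ C : ℝ, 0 < C ∧ (u.length ≤ dd → ∀ (f : SV) (x : E),
      ∫ y in cube x 1, dW u f y ^ 2 ≤ C * nA dd f) := by
    intro u
    obtain ⟨C, hC, h⟩ := ordA_dW u 0
    refine ⟨C, hC, fun hu f x => ?_⟩
    have h1 : ∫ y in cube x 1, dW u f y ^ 2 ≤ ∫ y, dW u f y ^ 2 :=
      setIntegral_le_integral (by simpa only [sq] using integrable_mul (dW u f) (dW u f))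
        (Eventually.of_forall fun y => sq_nonneg _)
    rw [← ip_self_eq, ← nA_zero] at h1
    refine h1.trans ((h f).trans (mul_le_mul_of_nonneg_left (nA_mono (by omega) f) hC.le))
  choose C hC h using hb
  set S := ∑ j ∈ Finset.range (dd + 1), ∑ u ∈ words j, C u with hS
  have hle : ∀ u : List Ix, u.length ≤ dd → C u ≤ S := fun u hu =>
    (Finset.single_le_sum (f := C) (fun u _ => (hC u).le) (mem_words.2 rfl)).trans
      (Finset.single_le_sum (f := fun j => ∑ u ∈ words j, C u)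
        (fun _ _ => Finset.sum_nonneg fun u _ => (hC u).le)
        (Finset.mem_range.2 (Nat.lt_succ_of_le hu)))
  have hS0 : 0 < S := (hC []).trans_le (hle [] (Nat.zero_le _))
  refine ⟨3 ^ dd * S, by positivity, fun f x => ?_⟩
  have key := sobolev_cube_scalar (q := fun u y => dW u f y ^ 2)
    (r := fun u i y => 2 * dW u f y * dV i (dW u f) y) (L := 1) (M := S * nA dd f) one_pos
    (fun u => (dW u f).continuous.pow 2) (fun u i y => by
      simpa using (hasDerivAt_line (dW u f) i y).fun_pow 2) (fun u i y => by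
      rw [dW_concat, div_one, one_mul, abs_le]
      constructor
      · nlinarith [sq_nonneg (dW u f y + dV i (dW u f) y)]
      · nlinarith [sq_nonneg (dW u f y - dV i (dW u f) y)]) x fun u hu => by
      rw [one_pow, one_mul]
      exact (h u hu f x).trans (mul_le_mul_of_nonneg_right (hle u hu) (nA_nonneg _ _))
  simp only [one_pow, div_one] at key
  rw [mul_assoc]
  exact key

lemma norm_le_sum_abs (x : E) : ‖x‖ ≤ ∑ i, |x i| := by
  conv_lhs => rw [← sum_coord_ev x]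
  refine (norm_sum_le _ _).trans (le_of_eq (Finset.sum_congr rfl fun i _ => ?_))
  rw [norm_smul, norm_ev, mul_one, Real.norm_eq_abs]

lemma pow_mul_abs_le (k : ℕ) :
    ∃ C : ℝ, 0 < C ∧ ∀ (f : SV) (x : E), ‖x‖ ^ k * |f x| ≤ C * √(nA (k + dd) f) := by
  induction k with
  | zero =>
    obtain ⟨C, hC, h⟩ := sq_le_nA_three
    refine ⟨√C, Real.sqrt_pos.2 hC, fun f x => ?_⟩
    rw [pow_zero, one_mul, ← Real.sqrt_mul hC.le, zero_add]
    exact Real.abs_le_sqrt (h f x)
  | succ k ih =>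
    obtain ⟨C, hC, h⟩ := ih
    choose D hD h' using fun j => (ordA_mulV j).sqrt (k + dd)
    refine ⟨C * ∑ j, D j, mul_pos hC (Finset.sum_pos (fun j _ => hD j) Finset.univ_nonempty),
      fun f x => ?_⟩
    calc ‖x‖ ^ (k + 1) * |f x| = ‖x‖ * (‖x‖ ^ k * |f x|) := by ring
      _ ≤ (∑ i, |x i|) * (‖x‖ ^ k * |f x|) := by gcongr; exact norm_le_sum_abs x
      _ = ∑ i, ‖x‖ ^ k * |mulV i f x| := by
          rw [Finset.sum_mul]
          exact Finset.sum_congr rfl fun i _ => by rw [mulV_apply, abs_mul]; ring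
      _ ≤ ∑ i, C * (D i * √(nA (k + dd + 1) f)) :=
          Finset.sum_le_sum fun i _ => (h _ x).trans (mul_le_mul_of_nonneg_left (h' i f) hC.le)
      _ = _ := by
          rw [← Finset.mul_sum, ← Finset.sum_mul, mul_assoc, add_right_comm k]

lemma fderiv_eq_sum (f : E → ℝ) (y : E) :
    fderiv ℝ f y = ∑ i, fderiv ℝ f y (ev i) • (EuclideanSpace.proj i : E →L[ℝ] ℝ) := by
  ext z
  conv_lhs => rw [← sum_coord_ev z]
  simp [mul_comm]

lemma norm_iteratedFDeriv_succ_le {f : E → ℝ} (hf : ContDiff ℝ (⊤ : ℕ∞) f) (n : ℕ) (x : E) :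
    ‖iteratedFDeriv ℝ (n + 1) f x‖ ≤
      ∑ i, ‖iteratedFDeriv ℝ n (fun y => fderiv ℝ f y (ev i)) x‖ := by
  have hd : ∀ i, ContDiff ℝ (⊤ : ℕ∞) fun y => fderiv ℝ f y (ev i) := fun i =>
    (contDiff_infty_iff_fderiv.1 hf).2.clm_apply contDiff_const
  have hd' : ∀ i, ContDiff ℝ n fun y => fderiv ℝ f y (ev i) := fun i =>
    (hd i).of_le (by exact_mod_cast le_top)
  rw [← norm_iteratedFDeriv_fderiv]
  set S : Ix → ℝ →L[ℝ] (E →L[ℝ] ℝ) := fun i =>
    ContinuousLinearMap.toSpanSingleton ℝ (EuclideanSpace.proj i : E →L[ℝ] ℝ) with hS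
  have e : fderiv ℝ f = fun y => ∑ i, (S i ∘ fun y => fderiv ℝ f y (ev i)) y := by
    funext y
    rw [fderiv_eq_sum f y]
    simp [hS]
  conv_lhs => rw [e]
  rw [iteratedFDeriv_fun_sum_apply fun i _ => ((S i).contDiff.comp (hd' i)).contDiffAt]
  refine (norm_sum_le _ _).trans (Finset.sum_le_sum fun i _ => ?_)
  refine ((S i).norm_iteratedFDeriv_comp_left (hd' i).contDiffAt le_rfl).trans ?_
  have : ‖S i‖ ≤ 1 := by
    rw [hS, ContinuousLinearMap.norm_toSpanSingleton]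
    refine ContinuousLinearMap.opNorm_le_bound _ zero_le_one fun z => ?_
    simpa using PiLp.norm_apply_le z i
  exact mul_le_of_le_one_left (norm_nonneg _) this

lemma pow_mul_iteratedFDeriv_le (k n : ℕ) : ∃ C : ℝ, 0 < C ∧ ∀ (f : SV) (x : E),
    ‖x‖ ^ k * ‖iteratedFDeriv ℝ n f x‖ ≤ C * √(nA (k + n + dd) f) := by
  induction n with
  | zero => simpa only [norm_iteratedFDeriv_zero, Real.norm_eq_abs, add_zero] using pow_mul_abs_le k
  | succ n ih =>
    obtain ⟨C, hC, h⟩ := ih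
    choose D hD h' using fun j => (ordA_dV j).sqrt (k + n + dd)
    refine ⟨C * ∑ j, D j, mul_pos hC (Finset.sum_pos (fun j _ => hD j) Finset.univ_nonempty),
      fun f x => ?_⟩
    calc ‖x‖ ^ k * ‖iteratedFDeriv ℝ (n + 1) f x‖
        ≤ ‖x‖ ^ k * ∑ i, ‖iteratedFDeriv ℝ n (dV i f) x‖ := by
          gcongr
          exact norm_iteratedFDeriv_succ_le (f.smooth ⊤) n x
      _ = ∑ i, ‖x‖ ^ k * ‖iteratedFDeriv ℝ n (dV i f) x‖ := Finset.mul_sum _ _ _
      _ ≤ ∑ i, C * (D i * √(nA (k + n + dd + 1) f)) :=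
          Finset.sum_le_sum fun i _ => (h _ x).trans (mul_le_mul_of_nonneg_left (h' i f) hC.le)
      _ = _ := by
          rw [← Finset.mul_sum, ← Finset.sum_mul, mul_assoc,
            show k + n + dd + 1 = k + (n + 1) + dd by omega]

/-- Sobolev: Schwartz seminorms are bounded by the norms `nA`. -/
lemma seminorm_le_sqrt_nA (k n : ℕ) : ∃ C : ℝ, 0 < C ∧ ∀ f : SV,
    SchwartzMap.seminorm ℝ k n f ≤ C * √(nA (k + n + dd) f) := by
  obtain ⟨C, hC, h⟩ := pow_mul_iteratedFDeriv_le k n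
  exact ⟨C, hC, fun f => seminorm_le_bound ℝ k n f (by positivity) (h f)⟩

lemma seminorm_sq_le (k n : ℕ) : ∃ C : ℝ, 0 < C ∧ ∀ f : SV,
    SchwartzMap.seminorm ℝ k n f ^ 2 ≤ C * nA (k + n + dd) f := by
  obtain ⟨C, hC, h⟩ := seminorm_le_sqrt_nA k n
  refine ⟨C ^ 2, by positivity, fun f => ?_⟩
  calc _ ≤ (C * √(nA (k + n + dd) f)) ^ 2 := by gcongr; exact h f
    _ = _ := by rw [mul_pow, Real.sq_sqrt (nA_nonneg _ _)]

/-- Every continuous seminorm on Schwartz space is bounded by one of the norms `nA`. -/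
lemma seminorm_le_of_continuous (p : Seminorm ℝ SV) (hp : Continuous p) :
    ∃ (m : ℕ) (C : ℝ), 0 < C ∧ ∀ f, p f ≤ C * √(nA m f) := by
  obtain ⟨s, C, _, hle⟩ := Seminorm.bound_of_continuous (schwartz_withSeminorms ℝ E ℝ) p hp
  choose D hD h using fun q : ℕ × ℕ => seminorm_le_sqrt_nA q.1 q.2
  refine ⟨s.sup fun q => q.1 + q.2 + dd, (C + 1) * (∑ q ∈ s, D q + 1), ?_, fun f => ?_⟩
  · have := Finset.sum_nonneg (s := s) fun q _ => (hD q).le
    positivity
  · have hS := Finset.sum_nonneg (s := s) fun q _ => (hD q).le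
    have h1 : (s.sup (schwartzSeminormFamily ℝ E ℝ)) f ≤
        (∑ q ∈ s, D q + 1) * √(nA (s.sup fun q => q.1 + q.2 + dd) f) := by
      refine Seminorm.finset_sup_apply_le (by positivity) fun q hq => (h q f).trans ?_
      gcongr
      · have := Finset.single_le_sum (f := D) (fun q _ => (hD q).le) hq
        linarith
      · exact nA_mono (Finset.le_sup (f := fun q : ℕ × ℕ => q.1 + q.2 + dd) hq) f
    calc p f ≤ C * (s.sup (schwartzSeminormFamily ℝ E ℝ)) f := hle f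
      _ ≤ (C + 1) * ((∑ q ∈ s, D q + 1) * √(nA (s.sup fun q => q.1 + q.2 + dd) f)) := by
          gcongr; linarith
      _ = _ := by ring

/-- Convergence in Schwartz space is convergence of all the norms `nA`. -/
lemma tendsto_SV_iff {ι : Type*} {l : Filter ι} {f : ι → SV} {g : SV} :
    Tendsto f l (𝓝 g) ↔ ∀ m, Tendsto (fun i => nA m (f i - g)) l (𝓝 0) := by
  constructor
  · intro h m
    have h1 : Tendsto (fun i => f i - g) l (𝓝 (g - g)) := h.sub tendsto_const_nhds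
    have := ((continuous_nA m).tendsto _).comp h1
    simpa [Function.comp_def] using this
  · intro h
    rw [(schwartz_withSeminorms ℝ E ℝ).tendsto_nhds]
    rintro ⟨k, n⟩ ε hε
    obtain ⟨C, hC, hb⟩ := seminorm_le_sqrt_nA k n
    have h1 : Tendsto (fun i => C * √(nA (k + n + dd) (f i - g))) l (𝓝 (C * √0)) :=
      ((h _).sqrt).const_mul C
    rw [Real.sqrt_zero, mul_zero] at h1
    filter_upwards [h1.eventually (gt_mem_nhds hε)] with i hi
    exact lt_of_le_of_lt (hb _) hi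

/-- Weighted bounds of a Schwartz function and of its increments by a norm `nA`. -/
lemma weighted_le_nA (p : ℕ) : ∃ C : ℝ, 0 < C ∧ ∀ (f : SV) (x : E),
    (1 + ‖x‖) ^ p * |f x| ≤ C * √(nA (p + dd) f) ∧
      (1 + ‖x‖) ^ p * ‖fderiv ℝ f x‖ ≤ C * √(nA (p + dd + 1) f) := by
  obtain ⟨C₁, h₁, b₁⟩ := pow_mul_iteratedFDeriv_le 0 0
  obtain ⟨C₂, h₂, b₂⟩ := pow_mul_iteratedFDeriv_le p 0
  obtain ⟨C₃, h₃, b₃⟩ := pow_mul_iteratedFDeriv_le 0 1
  obtain ⟨C₄, h₄, b₄⟩ := pow_mul_iteratedFDeriv_le p 1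
  refine ⟨2 ^ p * (C₁ + C₂ + C₃ + C₄), by positivity, fun f x => ?_⟩
  have hw : (1 + ‖x‖) ^ p ≤ 2 ^ p * (1 + ‖x‖ ^ p) := by
    rcases le_total ‖x‖ 1 with h | h
    · calc (1 + ‖x‖) ^ p ≤ 2 ^ p := by gcongr; linarith
        _ ≤ _ := le_mul_of_one_le_right (by positivity) (by simp)
    · calc (1 + ‖x‖) ^ p ≤ (2 * ‖x‖) ^ p := by gcongr; linarith
        _ = 2 ^ p * ‖x‖ ^ p := mul_pow _ _ _
        _ ≤ _ := by gcongr; linarith
  have c₁ := b₁ f x
  have c₂ := b₂ f x
  have c₃ := b₃ f x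
  have c₄ := b₄ f x
  simp only [pow_zero, one_mul, norm_iteratedFDeriv_zero, Real.norm_eq_abs, add_zero, zero_add,
    norm_iteratedFDeriv_one] at c₁ c₂ c₃ c₄
  have m₁ : √(nA dd f) ≤ √(nA (p + dd) f) := Real.sqrt_le_sqrt (nA_mono (by omega) f)
  have m₂ : √(nA (1 + dd) f) ≤ √(nA (p + dd + 1) f) := Real.sqrt_le_sqrt (nA_mono (by omega) f)
  have s₁ := Real.sqrt_nonneg (nA (p + dd) f)
  have s₂ := Real.sqrt_nonneg (nA (p + dd + 1) f)
  constructor
  · calc (1 + ‖x‖) ^ p * |f x| ≤ 2 ^ p * (1 + ‖x‖ ^ p) * |f x| := by gcongr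
      _ = 2 ^ p * (|f x| + ‖x‖ ^ p * |f x|) := by ring
      _ ≤ 2 ^ p * ((C₁ + C₂ + C₃ + C₄) * √(nA (p + dd) f)) := by
          gcongr
          nlinarith [mul_le_mul_of_nonneg_left m₁ h₁.le]
      _ = _ := by ring
  · calc (1 + ‖x‖) ^ p * ‖fderiv ℝ f x‖ ≤ 2 ^ p * (1 + ‖x‖ ^ p) * ‖fderiv ℝ f x‖ := by gcongr
      _ = 2 ^ p * (‖fderiv ℝ f x‖ + ‖x‖ ^ p * ‖fderiv ℝ f x‖) := by ring
      _ ≤ 2 ^ p * ((C₁ + C₂ + C₃ + C₄) * √(nA (p + dd + 1) f)) := by
          gcongr
          have c₅ : ‖x‖ ^ p * ‖fderiv ℝ f x‖ ≤ C₄ * √(nA (p + dd + 1) f) := by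
            rwa [add_right_comm]
          nlinarith [mul_le_mul_of_nonneg_left m₂ h₃.le]
      _ = _ := by ring

end Pool.Agent.BoltzM
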