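import Pool.Agent.BoltzM.Calc.Class
import Pool.Agent.BoltzM.Calc.Cube

/-! Bridges between the classes `Sm`, `SmC`, `SmD` and `ContDiff`. -/

set_option autoImplicit false
set_option linter.unusedSectionVars false

open Filter Topology Asymptotics
open scoped ContDiff

namespace Pool.Agent.BoltzM.BoltzC

variable [Dim]

variable {G : Type*} [NormedAddCommGroup G] [NormedSpace ℝ G]
variable {D : Type*} [NormedAddCommGroup D] [NormedSpace ℝ D]

theorem hd_line_of_hasFDerivAt {φ : D → G} {L : D →L[ℝ] G} {x : D} (h : HasFDerivAt φ L x)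
    (z : D) : HD (fun t : ℝ => φ (x + t • z)) (L z) 0 := HasDerivAt.hd (h.hasLineDerivAt z)

theorem dX_eq_fderiv {φ : E3 → G} {x : E3} (h : DifferentiableAt ℝ φ x) (i : Ix) :
    dX i φ x = fderiv ℝ φ x (ev i) := dX_eq (hd_line_of_hasFDerivAt h.hasFDerivAt _)

theorem dX_of_hasFDerivAt {φ : E3 → G} {L : E3 →L[ℝ] G} {x : E3} (h : HasFDerivAt φ L x)
    (i : Ix) : dX i φ x = L (ev i) := dX_eq (hd_line_of_hasFDerivAt h _)

theorem dif_of_differentiable {φ : E3 → G} (h : Differentiable ℝ φ) : Dif φ :=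
  dif_of_hd fun i x => hd_line_of_hasFDerivAt (h x).hasFDerivAt (ev i)

theorem dX_eq_lineDeriv {φ : E3 → G} (h : Dif φ) (i : Ix) (x : E3) :
    dX i φ x = lineDeriv ℝ φ x (ev i) := ((h i x).hasDerivAt.deriv).symm

theorem dX_congr_of_eventuallyEq {F : Type*} [AddCommGroup F] [Module ℝ F] [TopologicalSpace F]
    {φ ψ : E3 → F} {x : E3} (h : φ =ᶠ[𝓝 x] ψ) (i : Ix) : dX i φ x = dX i ψ x := by
  unfold dX limUnder
  congr 1
  refine map_congr ?_
  have h1 : Tendsto (fun t : ℝ => x + t • ev i) (𝓝[≠] 0) (𝓝 x) := by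
    have : Tendsto (fun t : ℝ => x + t • ev i) (𝓝 0) (𝓝 (x + (0 : ℝ) • ev i)) :=
      Continuous.tendsto (by fun_prop) 0
    rw [zero_smul, add_zero] at this
    exact this.mono_left nhdsWithin_le_nhds
  filter_upwards [h1.eventually h] with t ht
  rw [ht, h.eq_of_nhds]

theorem dX_eventuallyEq {F : Type*} [AddCommGroup F] [Module ℝ F] [TopologicalSpace F]
    {φ ψ : E3 → F} {x : E3} (h : φ =ᶠ[𝓝 x] ψ) (i : Ix) : dX i φ =ᶠ[𝓝 x] dX i ψ :=
  h.eventuallyEq_nhds.mono fun _ hy => dX_congr_of_eventuallyEq hy i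

theorem dXw_eventuallyEq {F : Type*} [AddCommGroup F] [Module ℝ F] [TopologicalSpace F]
    {φ ψ : E3 → F} {x : E3} (h : φ =ᶠ[𝓝 x] ψ) (u : List Ix) :
    dXw u φ =ᶠ[𝓝 x] dXw u ψ := by
  induction u generalizing φ ψ with
  | nil => exact h
  | cons i u ih => exact ih (dX_eventuallyEq h i)

theorem dXw_congr_of_eventuallyEq {F : Type*} [AddCommGroup F] [Module ℝ F] [TopologicalSpace F]
    {φ ψ : E3 → F} {x : E3} (h : φ =ᶠ[𝓝 x] ψ) (u : List Ix) : dXw u φ x = dXw u ψ x :=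
  (dXw_eventuallyEq h u).eq_of_nhds

theorem dX_eq_fderiv_joint {c : D → E3 → G} {s : D} {x : E3}
    (h : DifferentiableAt ℝ (fun p : D × E3 => c p.1 p.2) (s, x)) (i : Ix) :
    dX i (c s) x = fderiv ℝ (fun p : D × E3 => c p.1 p.2) (s, x) (0, ev i) := by
  apply dX_eq
  simpa using hd_line_of_hasFDerivAt h.hasFDerivAt (0, ev i)

theorem contDiff_dX_joint {c : D → E3 → G} (h : ContDiff ℝ ∞ fun p : D × E3 => c p.1 p.2)
    (i : Ix) : ContDiff ℝ ∞ fun p : D × E3 => dX i (c p.1) p.2 := by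
  have h1 := (contDiff_infty_iff_fderiv.1 h).2.clm_apply
    (contDiff_const (c := ((0, ev i) : D × E3)))
  have e : (fun p : D × E3 => dX i (c p.1) p.2) =
      fun p => fderiv ℝ (fun p : D × E3 => c p.1 p.2) p (0, ev i) :=
    funext fun p => dX_eq_fderiv_joint (h.differentiable (by simp) (p.1, p.2)) i
  rw [e]
  exact h1

theorem contDiff_dXw_joint {c : D → E3 → G} (h : ContDiff ℝ ∞ fun p : D × E3 => c p.1 p.2)
    (u : List Ix) : ContDiff ℝ ∞ fun p : D × E3 => dXw u (c p.1) p.2 := by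
  induction u generalizing c with
  | nil => exact h
  | cons i u ih => exact ih (c := fun s => dX i (c s)) (contDiff_dX_joint h i)

theorem contDiff_dX {φ : E3 → G} (h : ContDiff ℝ ∞ φ) (i : Ix) : ContDiff ℝ ∞ (dX i φ) := by
  have e : dX i φ = fun x => fderiv ℝ φ x (ev i) :=
    funext fun x => dX_eq_fderiv (h.differentiable (by simp) x) i
  rw [e]
  exact (contDiff_infty_iff_fderiv.1 h).2.clm_apply contDiff_const

theorem contDiff_dXw {φ : E3 → G} (h : ContDiff ℝ ∞ φ) (u : List Ix) :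
    ContDiff ℝ ∞ (dXw u φ) := by
  induction u generalizing φ with
  | nil => exact h
  | cons i u ih => exact ih (contDiff_dX h i)

theorem smC_of_contDiff {c : D → E3 → G} (h : ContDiff ℝ ∞ fun p : D × E3 => c p.1 p.2) :
    SmC c := fun u =>
  ⟨(contDiff_dXw_joint h u).continuous, fun s => dif_of_differentiable
    (((contDiff_dXw_joint h u).comp (contDiff_prodMk_right s)).differentiable (by simp))⟩

theorem sm_of_contDiff {φ : E3 → G} (h : ContDiff ℝ ∞ φ) : Sm φ := fun u =>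
  ⟨(contDiff_dXw h u).continuous.comp continuous_snd, fun _ => dif_of_differentiable
    ((contDiff_dXw h u).differentiable (by simp))⟩

theorem hasDerivAt_time_joint {c : ℝ → E3 → G} {s : ℝ} {x : E3}
    (h : DifferentiableAt ℝ (fun p : ℝ × E3 => c p.1 p.2) (s, x)) :
    HasDerivAt (fun t => c t x) (fderiv ℝ (fun p : ℝ × E3 => c p.1 p.2) (s, x) (1, 0)) s := by
  refine (hd_shift.1 ?_).hasDerivAt
  simpa using hd_line_of_hasFDerivAt h.hasFDerivAt (1, 0)

theorem contDiff_time_deriv {c : ℝ → E3 → G} (h : ContDiff ℝ ∞ fun p : ℝ × E3 => c p.1 p.2) :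
    ContDiff ℝ ∞ fun p : ℝ × E3 => deriv (fun t => c t p.2) p.1 := by
  have e : (fun p : ℝ × E3 => deriv (fun t => c t p.2) p.1) =
      fun p => fderiv ℝ (fun p : ℝ × E3 => c p.1 p.2) p (1, 0) :=
    funext fun p => (hasDerivAt_time_joint (h.differentiable (by simp) (p.1, p.2))).deriv
  rw [e]
  exact (contDiff_infty_iff_fderiv.1 h).2.clm_apply contDiff_const

theorem smD_of_contDiff {c : ℝ → E3 → G} (h : ContDiff ℝ ∞ fun p : ℝ × E3 => c p.1 p.2) :
    SmD c fun s x => deriv (fun t => c t x) s :=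
  ⟨smC_of_contDiff h, smC_of_contDiff (contDiff_time_deriv h), fun s x =>
    (hasDerivAt_time_joint (h.differentiable (by simp) (s, x))).differentiableAt.hasDerivAt.hd⟩

theorem SmD.deriv_eq {c c' : ℝ → E3 → G} (h : SmD c c') (s : ℝ) (x : E3) :
    deriv (fun t => c t x) s = c' s x := (h.hd s x).hasDerivAt.deriv

/-! ### Continuous partial derivatives -/

/-- Continuous derivatives along the vectors of a frame give differentiability. -/
theorem hasFDerivAt_of_frame {ι : Type*} [Fintype ι] (b : ι → D) (l : ι → D →L[ℝ] ℝ)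
    (hb : ∀ h, ∑ i, l i h • b i = h) {φ : D → G} {φ' : ι → D → G} {x : D}
    (hc : ∀ i, ContinuousAt (φ' i) x)
    (hd : ∀ i y, HasDerivAt (fun t : ℝ => φ (y + t • b i)) (φ' i y) 0) :
    HasFDerivAt φ (∑ i, (l i).smulRight (φ' i x)) x := by
  classical
  have key : ∀ S : Finset ι, (fun h => φ (x + ∑ i ∈ S, l i h • b i) - φ x -
      ∑ i ∈ S, l i h • φ' i x) =o[𝓝 0] fun h => h := by
    intro S
    induction S using Finset.induction_on with
    | empty => simp
    | insert j S hj ih =>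
      have h1 : (fun h => φ (x + ∑ i ∈ S, l i h • b i + l j h • b j) -
          φ (x + ∑ i ∈ S, l i h • b i) - l j h • φ' j x) =o[𝓝 0] fun h => l j h := by
        rw [isLittleO_iff]
        intro ε hε
        obtain ⟨δ, hδ, hball⟩ := Metric.continuousAt_iff.1 (hc j) ε hε
        have hT : Tendsto (fun h => ‖∑ i ∈ S, l i h • b i‖ + |l j h| * ‖b j‖) (𝓝 0) (𝓝 0) :=
          Continuous.tendsto' (by fun_prop) 0 0 (by simp)
        filter_upwards [hT.eventually (gt_mem_nhds hδ)] with h hh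
        set y := x + ∑ i ∈ S, l i h • b i with hy
        have h2 := seminorm_sub_le (normSeminorm ℝ G) continuous_norm
          (γ := fun τ => φ (y + τ • b j) - τ • φ' j x)
          (γ' := fun τ => φ' j (y + τ • b j) - φ' j x) (a := 0) (b := l j h) (C := ε)
          (fun τ _ => by
            refine HD.sub ?_ (HD.id_smul _ τ)
            refine hd_shift.1 ((hd j (y + τ • b j)).hd.congr fun t => ?_)
            rw [add_smul, add_assoc]) (fun τ hτ => by
            have h3 : |τ| ≤ |l j h| := by simpa using Set.abs_sub_left_of_mem_uIcc hτ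
            have h4 : dist (y + τ • b j) x < δ := by
              rw [dist_eq_norm, hy, add_assoc, add_sub_cancel_left]
              refine lt_of_le_of_lt ((norm_add_le _ _).trans ?_) hh
              rw [norm_smul, Real.norm_eq_abs]
              gcongr
            have := hball h4
            rw [dist_eq_norm] at this
            exact this.le)
        simp only [coe_normSeminorm, zero_smul, add_zero, sub_zero] at h2
        rw [sub_right_comm]
        exact h2
      have h2 := (h1.trans_isBigO ((l j).isBigO_id _)).add ih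
      refine h2.congr_left fun h => ?_
      rw [Finset.sum_insert hj, Finset.sum_insert hj, add_comm (l j h • b j), ← add_assoc]
      abel
  rw [hasFDerivAt_iff_isLittleO_nhds_zero]
  simpa [hb] using key Finset.univ

theorem contDiff_one_of_frame {ι : Type*} [Fintype ι] (b : ι → D) (l : ι → D →L[ℝ] ℝ)
    (hb : ∀ h, ∑ i, l i h • b i = h) {φ : D → G} {φ' : ι → D → G} (hc : ∀ i, Continuous (φ' i))
    (hd : ∀ i y, HasDerivAt (fun t : ℝ => φ (y + t • b i)) (φ' i y) 0) : ContDiff ℝ 1 φ :=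
  contDiff_one_iff_hasFDerivAt.2 ⟨fun x => ∑ i, (l i).smulRight (φ' i x),
    continuous_finsetSum _ fun i _ =>
      (ContinuousLinearMap.smulRightL ℝ D G (l i)).continuous.comp (hc i),
    fun _ => hasFDerivAt_of_frame b l hb (fun i => (hc i).continuousAt) hd⟩

/-- Coinduction principle for smoothness. -/
theorem contDiff_of_frame {ι : Type*} [Fintype ι] (b : ι → D) (l : ι → D →L[ℝ] ℝ)
    (hb : ∀ h, ∑ i, l i h • b i = h) (P : (D → G) → Prop)
    (hP : ∀ φ, P φ → Continuous φ ∧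
      ∀ i, ∃ φ', P φ' ∧ ∀ y, HasDerivAt (fun t : ℝ => φ (y + t • b i)) (φ' y) 0)
    {φ : D → G} (hφ : P φ) : ContDiff ℝ ∞ φ := by
  rw [contDiff_infty]
  intro n
  induction n generalizing φ with
  | zero => exact contDiff_zero.2 (hP φ hφ).1
  | succ n ih =>
    choose φ' h1 h2 using (hP φ hφ).2
    exact contDiff_succ_iff_hasFDerivAt.2 ⟨fun x => ∑ i, (l i).smulRight (φ' i x),
      ContDiff.sum fun i _ =>
        (ContinuousLinearMap.smulRightL ℝ D G (l i)).contDiff.comp (ih (h1 i)),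
      fun x => hasFDerivAt_of_frame b l hb (fun i => (hP _ (h1 i)).1.continuousAt) h2⟩

theorem frame_E3 (h : E3) : ∑ i, (EuclideanSpace.proj i : E3 →L[ℝ] ℝ) h • ev i = h :=
  sum_coord_ev h

theorem Sm.contDiff {φ : E3 → G} (h : Sm φ) : ContDiff ℝ ∞ φ :=
  contDiff_of_frame ev (fun i => EuclideanSpace.proj i) frame_E3 Sm
    (fun _ hψ => ⟨hψ.cont, fun i => ⟨_, hψ.dX i, fun y => (hψ.dif i y).hasDerivAt⟩⟩) h

theorem sm_iff_contDiff {φ : E3 → G} : Sm φ ↔ ContDiff ℝ ∞ φ := ⟨Sm.contDiff, sm_of_contDiff⟩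

theorem Sm.differentiable {φ : E3 → G} (h : Sm φ) : Differentiable ℝ φ :=
  h.contDiff.differentiable (by simp)

theorem Sm.fderiv_apply {φ : E3 → G} (h : Sm φ) (x z : E3) :
    fderiv ℝ φ x z = ∑ i, z i • BoltzC.dX i φ x := by
  conv_lhs => rw [← sum_coord_ev z]
  simp only [map_sum, map_smul, dX_eq_fderiv (h.differentiable x)]

theorem Sm.norm_fderiv_le {φ : E3 → G} (h : Sm φ) (x : E3) :
    ‖fderiv ℝ φ x‖ ≤ ∑ i, ‖BoltzC.dX i φ x‖ := by
  refine ContinuousLinearMap.opNorm_le_bound _ (by positivity) fun z => ?_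
  rw [h.fderiv_apply, Finset.sum_mul]
  refine (norm_sum_le _ _).trans (Finset.sum_le_sum fun i _ => ?_)
  rw [norm_smul, mul_comm]
  gcongr
  exact PiLp.norm_apply_le z i

/-- The frame of `ℝ × E3 × E3`. -/
noncomputable def frB : Option (Ix ⊕ Ix) → ℝ × E3 × E3
  | none => (1, 0, 0)
  | some (Sum.inl i) => (0, ev i, 0)
  | some (Sum.inr j) => (0, 0, ev j)

/-- The dual frame of `ℝ × E3 × E3`. -/
noncomputable def frL : Option (Ix ⊕ Ix) → ℝ × E3 × E3 →L[ℝ] ℝ
  | none => ContinuousLinearMap.fst ℝ _ _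
  | some (Sum.inl i) => (EuclideanSpace.proj i : E3 →L[ℝ] ℝ).comp
      ((ContinuousLinearMap.fst ℝ E3 E3).comp (ContinuousLinearMap.snd ℝ ℝ _))
  | some (Sum.inr j) => (EuclideanSpace.proj j : E3 →L[ℝ] ℝ).comp
      ((ContinuousLinearMap.snd ℝ E3 E3).comp (ContinuousLinearMap.snd ℝ ℝ _))

theorem frame_seven (h : ℝ × E3 × E3) : ∑ i, frL i h • frB i = h := by
  obtain ⟨s, x, v⟩ := h
  simp only [Fintype.sum_option, Fintype.sum_sum_type, frL, frB]
  refine Prod.ext ?_ (Prod.ext ?_ ?_)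
  · simp [Prod.fst_sum]
  · simpa [Prod.fst_sum, Prod.snd_sum] using sum_coord_ev x
  · simpa [Prod.snd_sum] using sum_coord_ev v

/-- Continuous first partial derivatives in `(s, x, v)` give a `C^1` function, with the formula
for the derivative. -/
theorem hasFDerivAt_of_partials {g gs : ℝ → E3 → E3 → G} {gx gv : Ix → ℝ → E3 → E3 → G}
    (cs : Continuous fun q : ℝ × E3 × E3 => gs q.1 q.2.1 q.2.2)
    (cx : ∀ i, Continuous fun q : ℝ × E3 × E3 => gx i q.1 q.2.1 q.2.2)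
    (cv : ∀ i, Continuous fun q : ℝ × E3 × E3 => gv i q.1 q.2.1 q.2.2)
    (hs : ∀ s x v, HasDerivAt (fun t => g t x v) (gs s x v) s)
    (hx : ∀ i s x v, HasDerivAt (fun t : ℝ => g s (x + t • ev i) v) (gx i s x v) 0)
    (hv : ∀ i s x v, HasDerivAt (fun t : ℝ => g s x (v + t • ev i)) (gv i s x v) 0) :
    ContDiff ℝ 1 (fun q : ℝ × E3 × E3 => g q.1 q.2.1 q.2.2) ∧
      ∀ q z : ℝ × E3 × E3, fderiv ℝ (fun q : ℝ × E3 × E3 => g q.1 q.2.1 q.2.2) q z =
        z.1 • gs q.1 q.2.1 q.2.2 + ∑ i, z.2.1 i • gx i q.1 q.2.1 q.2.2 +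
          ∑ i, z.2.2 i • gv i q.1 q.2.1 q.2.2 := by
  let φ' : Option (Ix ⊕ Ix) → ℝ × E3 × E3 → G := fun k q =>
    match k with
    | none => gs q.1 q.2.1 q.2.2
    | some (Sum.inl i) => gx i q.1 q.2.1 q.2.2
    | some (Sum.inr j) => gv j q.1 q.2.1 q.2.2
  have hc : ∀ k, Continuous (φ' k) := by
    rintro (_ | i | j)
    · exact cs
    · exact cx i
    · exact cv j
  have hd : ∀ k (y : ℝ × E3 × E3), HasDerivAt (fun t : ℝ =>
      (fun q : ℝ × E3 × E3 => g q.1 q.2.1 q.2.2) (y + t • frB k)) (φ' k y) 0 := by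
    rintro (_ | i | j) y
    · simpa [frB, φ'] using (hd_shift.2 (hs y.1 y.2.1 y.2.2).hd).hasDerivAt
    · simpa [frB, φ'] using hx i y.1 y.2.1 y.2.2
    · simpa [frB, φ'] using hv j y.1 y.2.1 y.2.2
  refine ⟨contDiff_one_of_frame frB frL frame_seven hc hd, fun q z => ?_⟩
  rw [(hasFDerivAt_of_frame frB frL frame_seven (fun k => (hc k).continuousAt) hd).fderiv]
  simp [Fintype.sum_option, Fintype.sum_sum_type, frL, φ', add_assoc]

theorem norm_le_of_partials {L : ℝ × E3 × E3 →L[ℝ] G} {a : G} {b c : Ix → G}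
    (h : ∀ z, L z = z.1 • a + ∑ i, z.2.1 i • b i + ∑ i, z.2.2 i • c i) :
    ‖L‖ ≤ ‖a‖ + ∑ i, ‖b i‖ + ∑ i, ‖c i‖ := by
  refine ContinuousLinearMap.opNorm_le_bound _ (by positivity) fun z => ?_
  have h1 : ‖z.1‖ ≤ ‖z‖ := norm_fst_le z
  have h2 : ∀ i, ‖z.2.1 i‖ ≤ ‖z‖ := fun i =>
    (PiLp.norm_apply_le z.2.1 i).trans ((norm_fst_le z.2).trans (norm_snd_le z))
  have h3 : ∀ i, ‖z.2.2 i‖ ≤ ‖z‖ := fun i =>
    (PiLp.norm_apply_le z.2.2 i).trans ((norm_snd_le z.2).trans (norm_snd_le z))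
  rw [h, add_mul, add_mul, Finset.sum_mul, Finset.sum_mul]
  refine (norm_add₃_le).trans (add_le_add (add_le_add ?_ ?_) ?_)
  · rw [norm_smul, mul_comm]; gcongr
  · refine (norm_sum_le _ _).trans (Finset.sum_le_sum fun i _ => ?_)
    rw [norm_smul, mul_comm]; gcongr; exact h2 i
  · refine (norm_sum_le _ _).trans (Finset.sum_le_sum fun i _ => ?_)
    rw [norm_smul, mul_comm]; gcongr; exact h3 i

/-! ### Composition with smooth scalar functions -/

variable {T : Type*} [TopologicalSpace T]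

/-- Composition with a function that is smooth on an open set containing the range. -/
theorem SmC.comp_contDiffOn {a : T → E3 → ℝ} (ha : SmC a) {U : Set ℝ} (hU : IsOpen U)
    (hm : ∀ s x, a s x ∈ U) {f : ℝ → ℝ} (hf : ContDiffOn ℝ ∞ f U) :
    SmC fun s x => f (a s x) := by
  let P : (T → E3 → ℝ) → Prop := fun k => ∃ (n : ℕ) (c : Fin n → T → E3 → ℝ) (F : Fin n → ℝ → ℝ),
    (∀ j, SmC (c j)) ∧ (∀ j, ContDiffOn ℝ ∞ (F j) U) ∧ k = fun s x => ∑ j, c j s x * F j (a s x)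
  refine smC_coind P ?_ ⟨1, fun _ _ _ => 1, fun _ => f, fun _ => SmC.const 1, fun _ => hf,
    by funext s x; simp⟩
  rintro k ⟨n, c, F, hc, hF, rfl⟩
  have hF' : ∀ j, ContDiffOn ℝ ∞ (deriv (F j)) U := fun j =>
    ((contDiffOn_infty_iff_deriv_of_isOpen hU).1 (hF j)).2
  refine ⟨continuous_finsetSum _ fun j _ => (hc j).cont.mul
    ((hF j).continuousOn.comp_continuous ha.cont fun p => hm p.1 p.2), fun i => ⟨_,
    ⟨n + n, Fin.append (fun j s => BoltzC.dX i (c j s)) fun j s x => c j s x * BoltzC.dX i (a s) x,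
      Fin.append F fun j => deriv (F j), fun j => ?_, fun j => ?_, rfl⟩, fun s x => ?_⟩⟩
  · refine Fin.addCases (fun j => ?_) (fun j => ?_) j
    · rw [Fin.append_left]; exact (hc j).dX i
    · rw [Fin.append_right]; exact (hc j).mul (ha.dX i)
  · refine Fin.addCases (fun j => ?_) (fun j => ?_) j
    · rw [Fin.append_left]; exact hF j
    · rw [Fin.append_right]; exact hF' j
  · simp only [Fin.sum_univ_add, Fin.append_left, Fin.append_right, ← Finset.sum_add_distrib]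
    refine HD.sum _ fun j _ => ?_
    have h1 : HasDerivAt (F j) (deriv (F j) (a s x)) (a s (x + (0 : ℝ) • ev i)) := by
      rw [zero_smul, add_zero]
      exact (((hF j).contDiffAt (hU.mem_nhds (hm s x))).differentiableAt (by simp)).hasDerivAt
    have h2 := h1.comp (0 : ℝ) (ha.dif s i x).hasDerivAt
    refine (((hc j).dif s i x).hasDerivAt.mul h2).hd.congr_deriv ?_
    simp only [Function.comp, zero_smul, add_zero]
    ring

theorem SmC.rpow {a : T → E3 → ℝ} (ha : SmC a) (hpos : ∀ s x, 0 < a s x) (p : ℝ) :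
    SmC fun s x => a s x ^ p :=
  ha.comp_contDiffOn isOpen_Ioi hpos (f := fun t => t ^ p) fun _ ht =>
    (Real.contDiffAt_rpow_const_of_ne (ne_of_gt ht)).contDiffWithinAt

theorem SmC.inv {a : T → E3 → ℝ} (ha : SmC a) (hne : ∀ s x, a s x ≠ 0) :
    SmC fun s x => (a s x)⁻¹ :=
  ha.comp_contDiffOn isOpen_compl_singleton hne (f := fun t => t⁻¹) (contDiffOn_inv ℝ)

theorem SmC.div {a b : T → E3 → ℝ} (ha : SmC a) (hb : SmC b) (hne : ∀ s x, b s x ≠ 0) :
    SmC fun s x => a s x / b s x := by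
  simpa only [div_eq_mul_inv] using ha.mul (hb.inv hne)

theorem SmC.pow {a : T → E3 → ℝ} (ha : SmC a) (n : ℕ) : SmC fun s x => a s x ^ n :=
  ha.comp_contDiffOn isOpen_univ (fun _ _ => trivial) (f := fun t => t ^ n)
    (contDiff_id.pow n).contDiffOn

theorem Sm.rpow {a : E3 → ℝ} (ha : Sm a) (hpos : ∀ x, 0 < a x) (p : ℝ) : Sm fun x => a x ^ p :=
  SmC.rpow ha (fun _ => hpos) p

theorem Sm.inv {a : E3 → ℝ} (ha : Sm a) (hne : ∀ x, a x ≠ 0) : Sm fun x => (a x)⁻¹ :=
  SmC.inv ha fun _ => hne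

theorem Sm.div {a b : E3 → ℝ} (ha : Sm a) (hb : Sm b) (hne : ∀ x, b x ≠ 0) :
    Sm fun x => a x / b x := SmC.div ha hb fun _ => hne

theorem Sm.pow {a : E3 → ℝ} (ha : Sm a) (n : ℕ) : Sm fun x => a x ^ n := SmC.pow ha n

/-- Chain rule in time for a function that is smooth on an open set containing the range. -/
theorem SmD.comp_contDiffOn {a a' : ℝ → E3 → ℝ} (ha : SmD a a') {U : Set ℝ} (hU : IsOpen U)
    (hm : ∀ s x, a s x ∈ U) {f : ℝ → ℝ} (hf : ContDiffOn ℝ ∞ f U) :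
    SmD (fun s x => f (a s x)) fun s x => deriv f (a s x) * a' s x :=
  ⟨ha.sm.comp_contDiffOn hU hm hf,
    (ha.sm.comp_contDiffOn hU hm ((contDiffOn_infty_iff_deriv_of_isOpen hU).1 hf).2).mul ha.sm',
    fun s x => (((hf.contDiffAt (hU.mem_nhds (hm s x))).differentiableAt
      (by simp)).hasDerivAt.comp s (ha.hd s x).hasDerivAt).hd⟩

theorem SmD.pow {a a' : ℝ → E3 → ℝ} (ha : SmD a a') (n : ℕ) :
    SmD (fun s x => a s x ^ n) fun s x => n * a s x ^ (n - 1) * a' s x :=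
  ⟨ha.sm.pow n, ((SmC.const (n : ℝ)).mul (ha.sm.pow _)).mul ha.sm',
    fun s x => ((ha.hd s x).hasDerivAt.fun_pow n).hd⟩

theorem SmD.rpow {a a' : ℝ → E3 → ℝ} (ha : SmD a a') (hpos : ∀ s x, 0 < a s x) (p : ℝ) :
    SmD (fun s x => a s x ^ p) fun s x => a' s x * p * a s x ^ (p - 1) :=
  ⟨ha.sm.rpow hpos p, (ha.sm'.mul (SmC.const p)).mul (ha.sm.rpow hpos _),
    fun s x => ((ha.hd s x).hasDerivAt.rpow_const (Or.inl (hpos s x).ne')).hd⟩

theorem SmD.inv {a a' : ℝ → E3 → ℝ} (ha : SmD a a') (hne : ∀ s x, a s x ≠ 0) :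
    SmD (fun s x => (a s x)⁻¹) fun s x => -a' s x / a s x ^ 2 :=
  ⟨ha.sm.inv hne, ha.sm'.neg.div (ha.sm.pow 2) fun s x => pow_ne_zero 2 (hne s x),
    fun s x => ((ha.hd s x).hasDerivAt.fun_inv (hne s x)).hd⟩

theorem dX_comp {a : E3 → ℝ} (ha : Dif a) {f : ℝ → ℝ} {f' : ℝ} {x : E3}
    (hf : HasDerivAt f f' (a x)) (i : Ix) : dX i (fun y => f (a y)) x = f' * dX i a x := by
  have h1 : HasDerivAt f f' (a (x + (0 : ℝ) • ev i)) := by simpa using hf
  exact dX_eq (h1.comp (0 : ℝ) (ha i x).hasDerivAt).hd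

theorem dX_pow {a : E3 → ℝ} (ha : Dif a) (n : ℕ) (i : Ix) (x : E3) :
    dX i (fun y => a y ^ n) x = n * a x ^ (n - 1) * dX i a x :=
  dX_comp ha (hasDerivAt_pow n (a x)) i

theorem dX_rpow {a : E3 → ℝ} (ha : Dif a) {x : E3} (hx : a x ≠ 0) (p : ℝ) (i : Ix) :
    dX i (fun y => a y ^ p) x = p * a x ^ (p - 1) * dX i a x :=
  dX_comp ha (Real.hasDerivAt_rpow_const (Or.inl hx)) i

end Pool.Agent.BoltzM.BoltzC
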