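import Pool.Agent.BoltzM.Calc.Class
import Pool.Agent.BoltzM.Calc.Cube

/-! The integral over a period cell. -/

set_option autoImplicit false
set_option linter.unusedSectionVars false

open Filter Topology MeasureTheory Set

namespace Pool.Agent.BoltzM.BoltzC

variable [Dim]

variable {T : Type*} [TopologicalSpace T]

/-! ### Lattice periodicity and bounds -/

theorem Per.add_int_smul {α : Type*} {G : E3 → α} (h : Per G) (i : Ix) (n : ℤ) (x : E3) :
    G (x + (n : ℝ) • ev i) = G x := by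
  have hp : Function.Periodic G (ev i) := fun x => h i x
  have := (hp.zsmul n) x
  rwa [← Int.cast_smul_eq_zsmul ℝ] at this

theorem Per.add_lattice {α : Type*} {G : E3 → α} (h : Per G) (n : Ix → ℤ) (x : E3) :
    G (x + ∑ i, (n i : ℝ) • ev i) = G x := by
  have key : ∀ S : Finset Ix, G (x + ∑ i ∈ S, (n i : ℝ) • ev i) = G x := fun S => by
    induction S using Finset.induction_on with
    | empty => simp
    | insert i S hi ih => rw [Finset.sum_insert hi, add_comm (_ • _), ← add_assoc, h.add_int_smul, ih]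
  exact key _

theorem Per.add_of_int {α : Type*} {G : E3 → α} (h : Per G) (n : Ix → ℤ) {z : E3}
    (hz : ∀ i, z i = n i) (x : E3) : G (x + z) = G x := by
  rw [← sum_coord_ev z]
  simp only [hz]
  exact h.add_lattice n x

theorem exists_lattice_mem_cube (a x : E3) :
    ∃ n : Ix → ℤ, x + ∑ i, (n i : ℝ) • ev i ∈ cube a 1 := by
  refine ⟨fun i => ⌊a i + 1 - x i⌋, fun j => ?_⟩
  have e : (x + ∑ i, ((⌊a i + 1 - x i⌋ : ℤ) : ℝ) • ev i) j = x j + ⌊a j + 1 - x j⌋ := by
    simp [ev_coord]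
  rw [e]
  have h1 := Int.floor_le (a j + 1 - x j)
  have h2 := Int.lt_floor_add_one (a j + 1 - x j)
  constructor <;> linarith

theorem Per.exists_mem_cube {α : Type*} {G : E3 → α} (h : Per G) (a x : E3) :
    ∃ y ∈ cube a 1, G y = G x := by
  obtain ⟨n, hn⟩ := exists_lattice_mem_cube a x
  exact ⟨_, hn, h.add_lattice n x⟩

/-- A jointly continuous periodic family is bounded on compact parameter sets. -/
theorem exists_bound_of_per {ψ : T → E3 → ℝ} (hc : Continuous fun p : T × E3 => ψ p.1 p.2)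
    (hp : ∀ s, Per (ψ s)) {K : Set T} (hK : IsCompact K) :
    ∃ C, 0 < C ∧ ∀ s ∈ K, ∀ x, |ψ s x| ≤ C := by
  obtain ⟨C, hC⟩ := (hK.prod (isCompact_closedBall (0 : E3) (dd * |(1 : ℝ)|))).exists_bound_of_continuousOn
    hc.continuousOn
  refine ⟨max C 1, lt_max_of_lt_right one_pos, fun s hs x => ?_⟩
  obtain ⟨y, hy, e⟩ := (hp s).exists_mem_cube 0 x
  rw [← e]
  exact (hC (s, y) ⟨hs, cube_subset_closedBall 0 1 hy⟩).trans (le_max_left _ _)

/-- A positive jointly continuous periodic family is bounded below on compact parameter sets. -/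
theorem exists_lower_bound_of_per {ψ : T → E3 → ℝ} (hc : Continuous fun p : T × E3 => ψ p.1 p.2)
    (hp : ∀ s, Per (ψ s)) {K : Set T} (hK : IsCompact K) (hpos : ∀ s ∈ K, ∀ x, 0 < ψ s x) :
    ∃ c, 0 < c ∧ ∀ s ∈ K, ∀ x, c ≤ ψ s x := by
  obtain ⟨c, hc0, hc1⟩ := (hK.prod (isCompact_closedBall (0 : E3)
    (dd * |(1 : ℝ)|))).exists_forall_le' hc.continuousOn (a := 0) fun p hp => hpos p.1 hp.1 p.2
  refine ⟨c, hc0, fun s hs x => ?_⟩
  obtain ⟨y, hy, e⟩ := (hp s).exists_mem_cube 0 x
  rw [← e]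
  exact hc1 (s, y) ⟨hs, cube_subset_closedBall 0 1 hy⟩

theorem Per.exists_bound {ψ : E3 → ℝ} (hp : Per ψ) (hc : Continuous ψ) :
    ∃ C, 0 < C ∧ ∀ x, |ψ x| ≤ C := by
  obtain ⟨C, h0, h⟩ := exists_bound_of_per (T := Unit) (ψ := fun _ => ψ) (hc.comp continuous_snd)
    (fun _ => hp) isCompact_univ
  exact ⟨C, h0, h () trivial⟩

/-! ### Linearity and order -/

theorem integrableOn_tint {φ : E3 → ℝ} (hφ : Continuous φ) : IntegrableOn φ (cube 0 1) :=
  integrableOn_cube hφ 0 1

theorem tint_congr {φ ψ : E3 → ℝ} (h : ∀ x, φ x = ψ x) : tint φ = tint ψ := by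
  rw [funext h]

@[simp] theorem tint_zero : tint (fun _ => 0) = 0 := by simp [tint]

theorem tint_add {φ ψ : E3 → ℝ} (hφ : Continuous φ) (hψ : Continuous ψ) :
    tint (fun x => φ x + ψ x) = tint φ + tint ψ :=
  integral_add (integrableOn_tint hφ) (integrableOn_tint hψ)

theorem tint_sub {φ ψ : E3 → ℝ} (hφ : Continuous φ) (hψ : Continuous ψ) :
    tint (fun x => φ x - ψ x) = tint φ - tint ψ :=
  integral_sub (integrableOn_tint hφ) (integrableOn_tint hψ)

theorem tint_neg (φ : E3 → ℝ) : tint (fun x => -φ x) = -tint φ := integral_neg _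

theorem tint_const_mul (c : ℝ) (φ : E3 → ℝ) : tint (fun x => c * φ x) = c * tint φ :=
  integral_const_mul _ _

theorem tint_mul_const (c : ℝ) (φ : E3 → ℝ) : tint (fun x => φ x * c) = tint φ * c :=
  integral_mul_const _ _

theorem tint_sum {ι : Type*} (S : Finset ι) {φ : ι → E3 → ℝ} (h : ∀ i ∈ S, Continuous (φ i)) :
    tint (fun x => ∑ i ∈ S, φ i x) = ∑ i ∈ S, tint (φ i) :=
  integral_finsetSum S fun i hi => integrableOn_tint (h i hi)

theorem tint_list_sum {ι : Type*} (l : List ι) {φ : ι → E3 → ℝ} (h : ∀ i ∈ l, Continuous (φ i)) :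
    tint (fun x => (l.map fun i => φ i x).sum) = (l.map fun i => tint (φ i)).sum := by
  induction l with
  | nil => simp
  | cons i l ih =>
    simp only [List.map_cons, List.sum_cons]
    rw [tint_add (h i (by simp)) (continuous_list_sum l fun j hj => h j (by simp [hj])),
      ih fun j hj => h j (by simp [hj])]

theorem tint_nonneg {φ : E3 → ℝ} (h : ∀ x, 0 ≤ φ x) : 0 ≤ tint φ := integral_nonneg h

theorem tint_mono {φ ψ : E3 → ℝ} (hφ : Continuous φ) (hψ : Continuous ψ) (h : ∀ x, φ x ≤ ψ x) :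
    tint φ ≤ tint ψ := integral_mono (integrableOn_tint hφ) (integrableOn_tint hψ) h

theorem abs_tint_le (φ : E3 → ℝ) : |tint φ| ≤ tint fun x => |φ x| := abs_integral_le_integral_abs

theorem abs_tint_le_of_abs_le {φ ψ : E3 → ℝ} (hψ : Continuous ψ) (h : ∀ x, |φ x| ≤ ψ x) :
    |tint φ| ≤ tint ψ :=
  norm_integral_le_of_norm_le (f := φ) (integrableOn_tint hψ) (Eventually.of_forall h)

theorem integral_cube_const (c : ℝ) (a : E3) {L : ℝ} (hL : 0 ≤ L) :
    ∫ _ in cube a L, c = L ^ dd * c := by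
  have h : ∀ l : List Ix, segL l L (fun _ => c) = fun _ => L ^ l.length * c := fun l => by
    induction l with
    | nil => simp [segL_nil]
    | cons i l ih =>
      funext x
      rw [segL_cons, ih, segI, List.length_cons]
      simp
      ring
  rw [integral_cube_eq_segL continuous_const a hL, h, List.length_finRange]

@[simp] theorem tint_const (c : ℝ) : tint (fun _ => c) = c := by
  rw [tint, integral_cube_const c 0 zero_le_one]; simp

theorem abs_tint_le_const {φ : E3 → ℝ} {C : ℝ} (h : ∀ x, |φ x| ≤ C) : |tint φ| ≤ C := by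
  simpa using abs_tint_le_of_abs_le (ψ := fun _ => C) continuous_const h

/-- Cauchy-Schwarz. -/
theorem abs_tint_le_sqrt {φ a b : E3 → ℝ} (ha : Continuous a) (hb : Continuous b)
    (ha0 : ∀ x, 0 ≤ a x) (hb0 : ∀ x, 0 ≤ b x) (h : ∀ x, |φ x| ≤ √(a x) * √(b x)) :
    |tint φ| ≤ √(tint a) * √(tint b) := by
  have hA := tint_nonneg ha0
  have hB := tint_nonneg hb0
  have key : ∀ t : ℝ, 0 ≤ tint a * (t * t) + (-2 * |tint φ|) * t + tint b := by
    intro t
    have h1 : |tint fun x => 2 * t * φ x| ≤ tint fun x => t * t * a x + b x := by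
      refine abs_tint_le_of_abs_le (by fun_prop) fun x => ?_
      have e1 := Real.mul_self_sqrt (ha0 x)
      have e2 := Real.mul_self_sqrt (hb0 x)
      have h2 : |2 * t * φ x| ≤ 2 * |t| * (√(a x) * √(b x)) := by
        rw [abs_mul, abs_mul, abs_two]
        gcongr
        exact h x
      have e3 := abs_mul_abs_self t
      nlinarith [sq_nonneg (|t| * √(a x) - √(b x))]
    rw [tint_const_mul, tint_add (by fun_prop) hb, tint_const_mul, abs_mul, abs_mul, abs_two] at h1
    nlinarith [le_abs_self t, abs_nonneg (tint φ)]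
  have hd := discrim_le_zero key
  rw [discrim] at hd
  rw [← Real.sqrt_mul hA]
  refine Real.le_sqrt_of_sq_le ?_
  nlinarith

/-! ### Translation invariance -/

theorem segI_add (i : Ix) (L : ℝ) (ψ : E3 → ℝ) (a : E3) :
    segI i L (fun x => ψ (x + a)) = fun x => segI i L ψ (x + a) := by
  funext x
  simp only [segI, add_right_comm]

theorem Per.segI {ψ : E3 → ℝ} (h : Per ψ) (i : Ix) (L : ℝ) : Per (segI i L ψ) := by
  intro j x
  unfold BoltzC.segI
  simp only [add_right_comm x (ev j), h j]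

theorem Per.segI_inv {ψ : E3 → ℝ} (h : Per ψ) (i : Ix) (s : ℝ) (x : E3) :
    BoltzC.segI i 1 ψ (x + s • ev i) = BoltzC.segI i 1 ψ x := by
  have hp : Function.Periodic (fun t : ℝ => ψ (x + t • ev i)) 1 := fun t => by
    simp only [add_smul, one_smul, ← add_assoc, h i]
  have h1 := hp.intervalIntegral_add_eq s 0
  have h2 := intervalIntegral.integral_comp_add_left (a := 0) (b := 1)
    (fun t : ℝ => ψ (x + t • ev i)) s
  unfold BoltzC.segI
  simp only [add_zero, zero_add, add_smul, ← add_assoc] at h1 h2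
  rw [h2, h1]

theorem segI_inv_of_inv {ψ : E3 → ℝ} {z : E3} (h : ∀ x, ψ (x + z) = ψ x) (i : Ix) (L : ℝ)
    (x : E3) : segI i L ψ (x + z) = segI i L ψ x := by
  unfold segI
  simp only [add_right_comm x z, h]

theorem Per.segL {ψ : E3 → ℝ} (h : Per ψ) (l : List Ix) (L : ℝ) : Per (segL l L ψ) := by
  induction l with
  | nil => exact h
  | cons i l ih => exact ih.segI i L

theorem Per.segL_inv {ψ : E3 → ℝ} (h : Per ψ) {l : List Ix} {i : Ix} (hi : i ∈ l) (s : ℝ) :
    ∀ x, BoltzC.segL l 1 ψ (x + s • ev i) = BoltzC.segL l 1 ψ x := by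
  induction l with
  | nil => simp at hi
  | cons j l ih =>
    rcases List.mem_cons.1 hi with rfl | hi
    · exact (h.segL l 1).segI_inv i s
    · exact segI_inv_of_inv (ih hi) j 1

theorem integral_cube_eq_tint {ψ : E3 → ℝ} (hp : Per ψ) (hc : Continuous ψ) (a : E3) :
    ∫ y in cube a 1, ψ y = tint ψ := by
  have h : ∀ S : Finset Ix, segL (List.finRange dd) 1 ψ (∑ i ∈ S, a i • ev i)
      = segL (List.finRange dd) 1 ψ 0 := fun S => by
    induction S using Finset.induction_on with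
    | empty => simp
    | insert i S hi ih => rw [Finset.sum_insert hi, add_comm, hp.segL_inv (List.mem_finRange i), ih]
  rw [tint, integral_cube_eq_segL hc a zero_le_one, integral_cube_eq_segL hc 0 zero_le_one,
    ← h Finset.univ, sum_coord_ev]

theorem segL_add (l : List Ix) (L : ℝ) (ψ : E3 → ℝ) (a : E3) :
    segL l L (fun x => ψ (x + a)) = fun x => segL l L ψ (x + a) := by
  induction l with
  | nil => rfl
  | cons i l ih => rw [segL_cons, ih, segI_add]; rfl

theorem tint_comp_add {ψ : E3 → ℝ} (hp : Per ψ) (hc : Continuous ψ) (a : E3) :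
    tint (fun x => ψ (x + a)) = tint ψ := by
  have hc' : Continuous fun x => ψ (x + a) := hc.comp (by fun_prop)
  rw [← integral_cube_eq_tint hp hc a, tint, integral_cube_eq_segL hc' 0 zero_le_one,
    integral_cube_eq_segL hc a zero_le_one, segL_add]
  simp only [zero_add]

theorem cube_mono (a : E3) {L L' : ℝ} (h : L ≤ L') : cube a L ⊆ cube a L' :=
  fun _ hx i => ⟨(hx i).1, (hx i).2.trans (by linarith)⟩

theorem integral_cube_le_tint {ψ : E3 → ℝ} (hp : Per ψ) (hc : Continuous ψ) (h0 : ∀ x, 0 ≤ ψ x)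
    (a : E3) {L : ℝ} (hL : L ≤ 1) : ∫ y in cube a L, ψ y ≤ tint ψ := by
  rw [← integral_cube_eq_tint hp hc a]
  exact setIntegral_mono_set (integrableOn_cube hc a 1) (Eventually.of_forall h0)
    (cube_mono a hL).eventuallyLE

/-- Weighted form: a weight that is at least `w₀` on the cube. -/
theorem mul_integral_cube_le_tint {ψ w : E3 → ℝ} (hp : Per ψ) (hc : Continuous ψ)
    (h0 : ∀ x, 0 ≤ ψ x) (hwp : Per w) (hwc : Continuous w) (hw0 : ∀ x, 0 ≤ w x) (a : E3) {L w₀ : ℝ}
    (hL : L ≤ 1) (hw : ∀ y ∈ cube a L, w₀ ≤ w y) :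
    w₀ * ∫ y in cube a L, ψ y ≤ tint fun x => w x * ψ x := by
  refine le_trans ?_ (integral_cube_le_tint (hwp.map₂ hp fun a b => a * b) (hwc.mul hc)
    (fun x => mul_nonneg (hw0 x) (h0 x)) a hL)
  rw [← integral_const_mul]
  exact setIntegral_mono_on (integrableOn_cube (by fun_prop) a L)
    (integrableOn_cube (hwc.mul hc) a L) (measurableSet_cube a L)
    fun y hy => mul_le_mul_of_nonneg_right (hw y hy) (h0 y)

theorem eq_zero_of_segI {ψ : E3 → ℝ} (hc : Continuous ψ) (h0 : ∀ x, 0 ≤ ψ x) {i : Ix} {x : E3}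
    (h : segI i 1 ψ x = 0) : ψ x = 0 := by
  by_contra hne
  have := intervalIntegral.integral_pos (f := fun t : ℝ => ψ (x + t • ev i)) zero_lt_one
    (Continuous.continuousOn (by fun_prop)) (fun t _ => h0 _)
    ⟨0, by simp, by simpa using lt_of_le_of_ne (h0 x) (Ne.symm hne)⟩
  exact this.ne' h

theorem segI_nonneg {ψ : E3 → ℝ} (h0 : ∀ x, 0 ≤ ψ x) (i : Ix) {L : ℝ} (hL : 0 ≤ L) (x : E3) :
    0 ≤ segI i L ψ x := intervalIntegral.integral_nonneg hL fun _ _ => h0 _

theorem segL_nonneg {ψ : E3 → ℝ} (h0 : ∀ x, 0 ≤ ψ x) (l : List Ix) {L : ℝ} (hL : 0 ≤ L) :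
    ∀ x, 0 ≤ segL l L ψ x := by
  induction l with
  | nil => exact h0
  | cons i l ih => exact segI_nonneg ih i hL

theorem eq_zero_of_tint_eq_zero {ψ : E3 → ℝ} (hp : Per ψ) (hc : Continuous ψ) (h0 : ∀ x, 0 ≤ ψ x)
    (h : tint ψ = 0) (x : E3) : ψ x = 0 := by
  rw [← integral_cube_eq_tint hp hc x, integral_cube_eq_segL hc x zero_le_one] at h
  generalize List.finRange dd = l at h
  induction l with
  | nil => exact h
  | cons i l ih =>
    exact ih (eq_zero_of_segI (continuous_segL l 1 hc) (segL_nonneg h0 l zero_le_one) h)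

/-! ### Parameters -/

theorem continuous_segI_param (i : Ix) (L : ℝ) {φ : T → E3 → ℝ}
    (h : Continuous fun p : T × E3 => φ p.1 p.2) :
    Continuous fun p : T × E3 => segI i L (φ p.1) p.2 :=
  intervalIntegral.continuous_parametric_intervalIntegral_of_continuous'
    (f := fun (p : T × E3) t => φ p.1 (p.2 + t • ev i))
    (h.comp (f := fun q : (T × E3) × ℝ => (q.1.1, q.1.2 + q.2 • ev i)) (by fun_prop)) 0 L

theorem continuous_integral_cube {φ : T → E3 → ℝ} (h : Continuous fun p : T × E3 => φ p.1 p.2)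
    (a : E3) {L : ℝ} (hL : 0 ≤ L) : Continuous fun s => ∫ y in cube a L, φ s y := by
  have h0 : ∀ l : List Ix, Continuous fun p : T × E3 => segL l L (φ p.1) p.2 := fun l => by
    induction l with
    | nil => exact h
    | cons i l ih => exact continuous_segI_param i L (φ := fun s => segL l L (φ s)) ih
  refine ((h0 (List.finRange dd)).comp (Continuous.prodMk_left a)).congr fun s => ?_
  exact (integral_cube_eq_segL (h.comp (Continuous.prodMk_right s)) a hL).symm

theorem continuous_tint {φ : T → E3 → ℝ} (h : Continuous fun p : T × E3 => φ p.1 p.2) :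
    Continuous fun s => tint (φ s) := continuous_integral_cube h 0 zero_le_one

theorem hasDerivAt_integral_cube {φ φ' : ℝ → E3 → ℝ} (h : ∀ s, Continuous (φ s))
    (h' : Continuous fun p : ℝ × E3 => φ' p.1 p.2)
    (hd : ∀ s x, HasDerivAt (fun σ => φ σ x) (φ' s x) s) (a : E3) (L s : ℝ) :
    HasDerivAt (fun σ => ∫ y in cube a L, φ σ y) (∫ y in cube a L, φ' s y) s := by
  obtain ⟨C, hC⟩ := ((isCompact_closedBall s 1).prod
    (isCompact_closedBall a (dd * |L|))).exists_bound_of_continuousOn h'.continuousOn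
  refine (hasDerivAt_integral_of_dominated_loc_of_deriv_le (μ := volume.restrict (cube a L))
    (F := φ) (F' := φ') (bound := fun _ => C) (Metric.closedBall_mem_nhds s one_pos)
    (Eventually.of_forall fun σ => (h σ).aestronglyMeasurable) (integrableOn_cube (h s) a L)
    (h'.comp (Continuous.prodMk_right s)).aestronglyMeasurable ?_
    (integrableOn_cube continuous_const a L) (Eventually.of_forall fun x σ _ => hd σ x)).2
  filter_upwards [ae_restrict_mem (measurableSet_cube a L)] with x hx σ hσ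
  exact hC (σ, x) ⟨hσ, cube_subset_closedBall a L hx⟩

theorem hasDerivAt_tint {φ φ' : ℝ → E3 → ℝ} (h : ∀ s, Continuous (φ s))
    (h' : Continuous fun p : ℝ × E3 => φ' p.1 p.2)
    (hd : ∀ s x, HasDerivAt (fun σ => φ σ x) (φ' s x) s) (s : ℝ) :
    HasDerivAt (fun σ => tint (φ σ)) (tint (φ' s)) s := hasDerivAt_integral_cube h h' hd 0 1 s

theorem SmC.continuous_tint {φ : T → E3 → ℝ} (h : SmC φ) : Continuous fun s => tint (φ s) :=
  BoltzC.continuous_tint h.cont

theorem SmD.hasDerivAt_tint {φ φ' : ℝ → E3 → ℝ} (h : SmD φ φ') (s : ℝ) :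
    HasDerivAt (fun σ => tint (φ σ)) (tint (φ' s)) s :=
  BoltzC.hasDerivAt_tint h.sm.cont_slice h.sm'.cont (fun s x => (h.hd s x).hasDerivAt) s

/-! ### Integration by parts -/

theorem tint_deriv_eq_zero {φ φ' : E3 → ℝ} {z : E3} (hp : Per φ) (hc : Continuous φ)
    (hc' : Continuous φ') (hd : ∀ x, HasDerivAt (fun t : ℝ => φ (x + t • z)) (φ' x) 0) :
    tint φ' = 0 := by
  have h1 := hasDerivAt_tint (φ := fun s x => φ (x + s • z)) (φ' := fun s x => φ' (x + s • z))
    (fun s => hc.comp (by fun_prop)) (hc'.comp (by fun_prop)) (fun s x => by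
      refine (hd_shift.1 ((hd (x + s • z)).hd.congr fun t => ?_)).hasDerivAt
      rw [add_smul, add_assoc]) 0
  simp only [tint_comp_add hp hc, zero_smul, add_zero] at h1
  exact h1.unique (hasDerivAt_const 0 _)

theorem tint_dX {φ : E3 → ℝ} (hφ : Sm φ) (hp : Per φ) (i : Ix) : tint (dX i φ) = 0 :=
  tint_deriv_eq_zero hp hφ.cont (hφ.dX i).cont fun x => (hφ.dif i x).hasDerivAt

variable {F₁ : Type*} [AddCommGroup F₁] [Module ℝ F₁] [TopologicalSpace F₁]
  [IsTopologicalAddGroup F₁] [ContinuousSMul ℝ F₁] [T2Space F₁]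
variable {F₂ : Type*} [AddCommGroup F₂] [Module ℝ F₂] [TopologicalSpace F₂]
  [IsTopologicalAddGroup F₂] [ContinuousSMul ℝ F₂] [T2Space F₂]

theorem tint_bilin_dX (B : F₁ →ₗ[ℝ] F₂ →ₗ[ℝ] ℝ) (hB : Continuous fun p : F₁ × F₂ => B p.1 p.2)
    {G : E3 → F₁} {H : E3 → F₂} (hG : Sm G) (hH : Sm H) (pG : Per G) (pH : Per H) (i : Ix) :
    tint (fun x => B (dX i G x) (H x)) = -tint fun x => B (G x) (dX i H x) := by
  have h1 := tint_dX (Sm.bilin B hB hG hH) (pG.map₂ pH fun a b => B a b) i
  rw [dX_bilin B hB hG.dif hH.dif, tint_add (Sm.bilin B hB (hG.dX i) hH).cont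
    (Sm.bilin B hB hG (hH.dX i)).cont] at h1
  linarith

theorem tint_dX_mul {φ ψ : E3 → ℝ} (hφ : Sm φ) (hψ : Sm ψ) (pφ : Per φ) (pψ : Per ψ) (i : Ix) :
    tint (fun x => dX i φ x * ψ x) = -tint fun x => φ x * dX i ψ x :=
  tint_bilin_dX (LinearMap.mul ℝ ℝ) continuous_mul hφ hψ pφ pψ i

/-- Weighted integration by parts for a symmetric form. -/
theorem tint_mul_bilin_dX_self (B : F₁ →ₗ[ℝ] F₁ →ₗ[ℝ] ℝ)
    (hB : Continuous fun p : F₁ × F₁ => B p.1 p.2) (hs : ∀ a b, B a b = B b a) {w : E3 → ℝ}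
    {G : E3 → F₁} (hw : Sm w) (hG : Sm G) (pw : Per w) (pG : Per G) (i : Ix) :
    tint (fun x => w x * B (dX i G x) (G x)) =
      -(1 / 2) * tint fun x => dX i w x * B (G x) (G x) := by
  have h1 := tint_dX_mul hw (Sm.bilin B hB hG hG) pw (pG.map fun a => B a a) i
  rw [dX_bilin B hB hG.dif hG.dif] at h1
  have h2 : (tint fun x => w x * (B (dX i G x) (G x) + B (G x) (dX i G x))) =
      2 * tint fun x => w x * B (dX i G x) (G x) := by
    rw [← tint_const_mul]
    exact tint_congr fun x => by rw [hs (G x) (dX i G x)]; ring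
  rw [h1, h2]
  ring

end Pool.Agent.BoltzM.BoltzC
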