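import Pool.Agent.BoltzM.Dim

/-! Calculus for maps with values in a topological vector space `F` (used with `F = ℝ` and with
`F` the Schwartz space of the velocity variable), smooth classes in `(s,x)`, torus integral. -/

set_option autoImplicit false

open Filter Topology MeasureTheory

namespace Pool.Agent.BoltzM.BoltzC

variable [Dim]

/-- Euclidean three-space (positions and velocities). -/
abbrev E3 := EuclideanSpace ℝ Ix

/-- The coordinate vectors. -/
noncomputable def ev (i : Ix) : E3 := EuclideanSpace.single i 1

section TVS

variable {F : Type*} [AddCommGroup F] [Module ℝ F] [TopologicalSpace F]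

/-- Derivative of a curve in a topological vector space: limit of the slopes. -/
def HD (γ : ℝ → F) (γ' : F) (t : ℝ) : Prop :=
  Tendsto (fun h : ℝ => h⁻¹ • (γ (t + h) - γ t)) (𝓝[≠] 0) (𝓝 γ')

/-- Partial derivative in the direction `ev i` (the limit of the slopes when it exists). -/
noncomputable def dX (i : Ix) (G : E3 → F) (x : E3) : F :=
  limUnder (𝓝[≠] (0 : ℝ)) (fun h : ℝ => h⁻¹ • (G (x + h • ev i) - G x))

/-- Iterated partial derivative along a word; the head of the word is applied first. -/
noncomputable def dXw : List Ix → (E3 → F) → E3 → F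
  | [], G => G
  | i :: u, G => dXw u (dX i G)

/-- Periodicity under the integer lattice. -/
def Per {α : Type*} (G : E3 → α) : Prop := ∀ i x, G (x + ev i) = G x

/-- Jointly continuous family (parameter space `T`) whose first partial derivatives in `x` exist. -/
structure Good {T : Type*} [TopologicalSpace T] (g : T → E3 → F) : Prop where
  cont : Continuous (fun p : T × E3 => g p.1 p.2)
  hd : ∀ s i x, HD (fun t => g s (x + t • ev i)) (dX i (g s) x) 0

/-- Families that are smooth in `x`, all `x`-derivatives being jointly continuous in `(s,x)`. -/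
def SmC {T : Type*} [TopologicalSpace T] (g : T → E3 → F) : Prop :=
  ∀ u : List Ix, Good (fun s => dXw u (g s))

/-- Smooth maps of `x`. -/
def Sm (G : E3 → F) : Prop := SmC (fun _ : Unit => G)

/-- `C^1` curves in `s` of smooth maps of `x`, with time derivative `g'`. -/
structure SmD (g g' : ℝ → E3 → F) : Prop where
  sm : SmC g
  sm' : SmC g'
  hd : ∀ s x, HD (fun σ => g σ x) (g' s x) s

end TVS

/-- The half-open cube with corner `a` and side `L`. -/
def cube (a : E3) (L : ℝ) : Set E3 := {x | ∀ i, x i ∈ Set.Ioc (a i) (a i + L)}

/-- Integral over one period cell. -/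
noncomputable def tint (φ : E3 → ℝ) : ℝ := ∫ x in cube 0 1, φ x

/-- All ways to split a word into two subwords (Leibniz rule). -/
def splits : List Ix → List (List Ix × List Ix)
  | [] => [([], [])]
  | i :: u => (splits u).map (fun p => (i :: p.1, p.2)) ++ (splits u).map (fun p => (p.1, i :: p.2))

/-- The real orthonormal (Hartley) basis of the torus. -/
noncomputable def cas (n : Ix → ℤ) (x : E3) : ℝ :=
  Real.cos (2 * Real.pi * ∑ i, (n i : ℝ) * x i) + Real.sin (2 * Real.pi * ∑ i, (n i : ℝ) * x i)

end Pool.Agent.BoltzM.BoltzC
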