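import Pool.Agent.BoltzM.Calc.Defs

/-! Basic rules for the slope derivative `HD` in a topological vector space. -/

set_option autoImplicit false
set_option linter.unusedSectionVars false

open Filter Topology

namespace Pool.Agent.BoltzM.BoltzC

variable [Dim]

section TVS

variable {F : Type*} [AddCommGroup F] [Module ℝ F] [TopologicalSpace F]
variable {F₁ : Type*} [AddCommGroup F₁] [Module ℝ F₁] [TopologicalSpace F₁]
variable {F₂ : Type*} [AddCommGroup F₂] [Module ℝ F₂] [TopologicalSpace F₂]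

theorem HD.unique [T2Space F] {γ : ℝ → F} {a b : F} {t : ℝ} (ha : HD γ a t) (hb : HD γ b t) :
    a = b := tendsto_nhds_unique ha hb

theorem HD.congr_deriv {γ : ℝ → F} {a b : F} {t : ℝ} (ha : HD γ a t) (h : a = b) : HD γ b t :=
  h ▸ ha

theorem HD.congr {γ δ : ℝ → F} {a : F} {t : ℝ} (ha : HD γ a t) (h : ∀ s, γ s = δ s) :
    HD δ a t := by
  have : γ = δ := funext h
  exact this ▸ ha

theorem HD.congr_of_eventuallyEq {γ δ : ℝ → F} {a : F} {t : ℝ} (ha : HD γ a t)
    (h : γ =ᶠ[𝓝 t] δ) : HD δ a t := by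
  unfold HD at *
  refine ha.congr' ?_
  have h1 : Tendsto (fun h : ℝ => t + h) (𝓝[≠] 0) (𝓝 t) := by
    have : Tendsto (fun h : ℝ => t + h) (𝓝 0) (𝓝 (t + 0)) :=
      (continuous_const.add continuous_id).tendsto 0
    rw [add_zero] at this
    exact this.mono_left nhdsWithin_le_nhds
  filter_upwards [h1.eventually h] with s hs
  rw [hs, h.eq_of_nhds]

theorem hd_shift {γ : ℝ → F} {a : F} {t : ℝ} : HD (fun h => γ (t + h)) a 0 ↔ HD γ a t := by
  unfold HD
  simp only [zero_add, add_zero]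

theorem HD.const (c : F) (t : ℝ) : HD (fun _ => c) 0 t := by
  unfold HD
  simpa using tendsto_const_nhds

theorem HD.clm {γ : ℝ → F₁} {a : F₁} {t : ℝ} (ha : HD γ a t) (T : F₁ →L[ℝ] F₂) :
    HD (fun s => T (γ s)) (T a) t := by
  unfold HD at *
  have := (T.continuous.tendsto a).comp ha
  refine this.congr fun h => ?_
  simp only [Function.comp, map_smul, map_sub]

variable [IsTopologicalAddGroup F] [ContinuousSMul ℝ F]
variable [IsTopologicalAddGroup F₁] [ContinuousSMul ℝ F₁]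
variable [IsTopologicalAddGroup F₂] [ContinuousSMul ℝ F₂]

theorem HD.tendsto {γ : ℝ → F} {a : F} {t : ℝ} (ha : HD γ a t) :
    Tendsto (fun h => γ (t + h)) (𝓝[≠] 0) (𝓝 (γ t)) := by
  have h0 : Tendsto (fun h : ℝ => h) (𝓝[≠] 0) (𝓝 0) := tendsto_id.mono_left nhdsWithin_le_nhds
  have h1 := (h0.smul ha).add (tendsto_const_nhds (x := γ t))
  rw [zero_smul, zero_add] at h1
  refine h1.congr' ?_
  filter_upwards [self_mem_nhdsWithin] with h hh
  have hh' : h ≠ 0 := hh
  rw [smul_smul, mul_inv_cancel₀ hh', one_smul, sub_add_cancel]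

theorem HD.continuousAt {γ : ℝ → F} {a : F} {t : ℝ} (ha : HD γ a t) : ContinuousAt γ t := by
  have h1 : ContinuousAt (fun h => γ (t + h)) 0 := by
    rw [← continuousWithinAt_compl_self]
    unfold ContinuousWithinAt
    simpa using ha.tendsto
  have h2 : ContinuousAt (fun s : ℝ => s - t) t := by fun_prop
  have h3 := ContinuousAt.comp_of_eq h1 h2 (by simp)
  refine h3.congr (Eventually.of_forall fun s => ?_)
  simp

theorem HD.add {γ δ : ℝ → F} {a b : F} {t : ℝ} (ha : HD γ a t) (hb : HD δ b t) :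
    HD (fun s => γ s + δ s) (a + b) t := by
  unfold HD at *
  refine (ha.add hb).congr fun h => ?_
  rw [← smul_add]
  congr 1
  beta_reduce
  abel

theorem HD.neg {γ : ℝ → F} {a : F} {t : ℝ} (ha : HD γ a t) : HD (fun s => -γ s) (-a) t := by
  unfold HD at *
  refine ha.neg.congr fun h => ?_
  rw [← smul_neg]
  congr 1
  beta_reduce
  abel

theorem HD.sub {γ δ : ℝ → F} {a b : F} {t : ℝ} (ha : HD γ a t) (hb : HD δ b t) :
    HD (fun s => γ s - δ s) (a - b) t := by
  simpa only [sub_eq_add_neg] using ha.add hb.neg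

theorem HD.const_smul {γ : ℝ → F} {a : F} {t : ℝ} (c : ℝ) (ha : HD γ a t) :
    HD (fun s => c • γ s) (c • a) t := by
  unfold HD at *
  refine (ha.const_smul c).congr fun h => ?_
  rw [← smul_sub, smul_comm]

theorem HD.sum {ι : Type*} (S : Finset ι) {γ : ι → ℝ → F} {a : ι → F} {t : ℝ}
    (h : ∀ i ∈ S, HD (γ i) (a i) t) : HD (fun s => ∑ i ∈ S, γ i s) (∑ i ∈ S, a i) t := by
  classical
  induction S using Finset.induction_on with
  | empty => simpa using HD.const (0 : F) t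
  | insert j S hj ih =>
    simp only [Finset.sum_insert hj]
    exact (h j (Finset.mem_insert_self _ _)).add
      (ih fun i hi => h i (Finset.mem_insert_of_mem hi))

/-- Product rule for a jointly continuous bilinear map. -/
theorem HD.bilin (B : F₁ →ₗ[ℝ] F₂ →ₗ[ℝ] F) (hB : Continuous fun p : F₁ × F₂ => B p.1 p.2)
    {γ : ℝ → F₁} {δ : ℝ → F₂} {a : F₁} {b : F₂} {t : ℝ} (ha : HD γ a t) (hb : HD δ b t) :
    HD (fun s => B (γ s) (δ s)) (B a (δ t) + B (γ t) b) t := by
  have h1 := (hB.tendsto (a, δ t)).comp (Tendsto.prodMk_nhds ha hb.tendsto)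
  have h2 := (hB.tendsto (γ t, b)).comp (Tendsto.prodMk_nhds (tendsto_const_nhds (x := γ t)) hb)
  unfold HD
  refine (h1.add h2).congr fun h => ?_
  simp only [Function.comp, map_smul, map_sub, LinearMap.smul_apply, LinearMap.sub_apply]
  rw [← smul_add]
  congr 1
  abel

theorem hd_iff_hasDerivAt {G : Type*} [NormedAddCommGroup G] [NormedSpace ℝ G] {γ : ℝ → G} {a : G}
    {t : ℝ} : HD γ a t ↔ HasDerivAt γ a t := hasDerivAt_iff_tendsto_slope_zero.symm

theorem HD.hasDerivAt {G : Type*} [NormedAddCommGroup G] [NormedSpace ℝ G] {γ : ℝ → G} {a : G}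
    {t : ℝ} (h : HD γ a t) : HasDerivAt γ a t := hd_iff_hasDerivAt.1 h

theorem _root_.HasDerivAt.hd {G : Type*} [NormedAddCommGroup G] [NormedSpace ℝ G] {γ : ℝ → G}
    {a : G} {t : ℝ} (h : HasDerivAt γ a t) : HD γ a t := hd_iff_hasDerivAt.2 h

theorem continuous_lsmul : Continuous fun p : ℝ × F => (LinearMap.lsmul ℝ F) p.1 p.2 := by
  simpa using (continuous_smul : Continuous fun p : ℝ × F => p.1 • p.2)

theorem HD.smul {c : ℝ → ℝ} {γ : ℝ → F} {c' : ℝ} {a : F} {t : ℝ} (hc : HD c c' t)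
    (ha : HD γ a t) : HD (fun s => c s • γ s) (c' • γ t + c t • a) t := by
  simpa using HD.bilin (LinearMap.lsmul ℝ F) continuous_lsmul hc ha

theorem HD.smul_const {c : ℝ → ℝ} {c' : ℝ} {t : ℝ} (hc : HD c c' t) (v : F) :
    HD (fun s => c s • v) (c' • v) t := by
  simpa using hc.smul (HD.const v t)

theorem HD.id_smul (v : F) (t : ℝ) : HD (fun s => s • v) v t := by
  simpa using (HasDerivAt.hd (hasDerivAt_id t)).smul_const v

/-- Mean value inequality for a continuous seminorm, ordered endpoints. -/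
theorem seminorm_sub_le_of_le (p : Seminorm ℝ F) (hp : Continuous p) {γ γ' : ℝ → F} {a b C : ℝ}
    (hab : a ≤ b) (h : ∀ t ∈ Set.Icc a b, HD γ (γ' t) t) (hC : ∀ t ∈ Set.Icc a b, p (γ' t) ≤ C) :
    p (γ b - γ a) ≤ C * (b - a) := by
  have key := image_le_of_liminf_slope_right_le_deriv_boundary (f := fun t => p (γ t - γ a))
    (a := a) (b := b) (B := fun t => C * (t - a)) (B' := fun _ => C) ?_ (by simp) (by fun_prop)
    ?_ ?_
  · exact key ⟨hab, le_rfl⟩
  · intro t ht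
    exact (hp.continuousAt.comp ((h t ht).continuousAt.sub continuousAt_const)).continuousWithinAt
  · intro t _
    simpa using (((hasDerivAt_id t).sub_const a).const_mul C).hasDerivWithinAt
  · intro t ht r hr
    have ht' : t ∈ Set.Icc a b := ⟨ht.1, ht.2.le⟩
    have h1 : Tendsto (fun z : ℝ => z - t) (𝓝[>] t) (𝓝[≠] 0) := by
      refine tendsto_nhdsWithin_iff.2 ⟨?_, ?_⟩
      · have : Tendsto (fun z : ℝ => z - t) (𝓝 t) (𝓝 (t - t)) :=
          (continuous_id.sub continuous_const).tendsto t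
        rw [sub_self] at this
        exact this.mono_left nhdsWithin_le_nhds
      · filter_upwards [self_mem_nhdsWithin] with z hz
        exact sub_ne_zero.2 (ne_of_gt hz)
    have h2 := (hp.tendsto _).comp ((h t ht').comp h1)
    have h3 := h2.eventually (gt_mem_nhds (lt_of_le_of_lt (hC t ht') hr))
    refine Eventually.frequently ?_
    filter_upwards [h3, self_mem_nhdsWithin] with z hz hzt
    have hpos : 0 < z - t := sub_pos.2 hzt
    simp only [Function.comp, add_sub_cancel, map_smul_eq_mul, Real.norm_eq_abs,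
      abs_of_pos (inv_pos.2 hpos)] at hz
    refine lt_of_le_of_lt ?_ hz
    rw [slope_def_field, div_eq_inv_mul]
    refine mul_le_mul_of_nonneg_left ?_ (inv_pos.2 hpos).le
    have e : γ z - γ a = (γ z - γ t) + (γ t - γ a) := by abel
    have := map_add_le_add p (γ z - γ t) (γ t - γ a)
    rw [← e] at this
    linarith

/-- Mean value inequality for a continuous seminorm. -/
theorem seminorm_sub_le (p : Seminorm ℝ F) (hp : Continuous p) {γ γ' : ℝ → F} {a b C : ℝ}
    (h : ∀ t ∈ Set.uIcc a b, HD γ (γ' t) t) (hC : ∀ t ∈ Set.uIcc a b, p (γ' t) ≤ C) :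
    p (γ b - γ a) ≤ C * |b - a| := by
  rcases le_total a b with hab | hab
  · rw [Set.uIcc_of_le hab] at h hC
    rw [abs_of_nonneg (sub_nonneg.2 hab)]
    exact seminorm_sub_le_of_le p hp hab h hC
  · rw [Set.uIcc_of_ge hab] at h hC
    rw [abs_sub_comm, abs_of_nonneg (sub_nonneg.2 hab), map_sub_rev]
    exact seminorm_sub_le_of_le p hp hab h hC

/-- Exchange of two derivatives when the mixed one is continuous. -/
theorem hd_swap [LocallyConvexSpace ℝ F] {φ φ₁ φ₁₂ : ℝ → ℝ → F} {φ₂ : ℝ → F} {s : ℝ}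
    (h1 : ∀ σ t, HD (fun σ => φ σ t) (φ₁ σ t) σ) (h2 : ∀ σ, HD (φ σ) (φ₂ σ) 0)
    (h12 : ∀ σ t, HD (φ₁ σ) (φ₁₂ σ t) t)
    (hc : ContinuousAt (fun p : ℝ × ℝ => φ₁₂ p.1 p.2) (s, 0)) : HD φ₂ (φ₁₂ s 0) s := by
  have hW := PolynormableSpace.withSeminorms ℝ F
  unfold HD
  rw [hW.tendsto_nhds]
  rintro ⟨p, hp⟩ ε hε
  set v := φ₁₂ s 0 with hv
  have hc' : ∀ᶠ q : ℝ × ℝ in 𝓝 (s, 0), p (φ₁₂ q.1 q.2 - v) < ε / 2 :=
    (hW.tendsto_nhds _ _).1 hc ⟨p, hp⟩ (ε / 2) (by positivity)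
  obtain ⟨δ, hδ, hball⟩ := Metric.eventually_nhds_iff.1 hc'
  have hb : ∀ σ t, |σ - s| < δ → |t| < δ → p (φ₁₂ σ t - v) ≤ ε / 2 := by
    intro σ t hσ ht
    refine (hball (y := (σ, t)) ?_).le
    rw [Prod.dist_eq, Real.dist_eq, Real.dist_eq, sub_zero]
    exact max_lt hσ ht
  have hsmall : ∀ᶠ h : ℝ in 𝓝[≠] 0, |h| < δ := by
    have : ∀ᶠ h : ℝ in 𝓝 0, |h| < δ := by
      filter_upwards [Metric.ball_mem_nhds (0 : ℝ) hδ] with h hh
      simpa using hh
    exact this.filter_mono nhdsWithin_le_nhds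
  filter_upwards [hsmall, self_mem_nhdsWithin] with h hh hh0
  have hh0' : h ≠ 0 := hh0
  have step : ∀ t : ℝ, t ≠ 0 → |t| < δ →
      p ((t⁻¹ • (φ (s + h) (0 + t) - φ (s + h) 0) - (s + h) • v) -
        (t⁻¹ • (φ s (0 + t) - φ s 0) - s • v)) ≤ ε / 2 * |s + h - s| := by
    intro t ht0 ht
    refine seminorm_sub_le p hp (γ := fun σ => t⁻¹ • (φ σ (0 + t) - φ σ 0) - σ • v)
      (γ' := fun σ => t⁻¹ • (φ₁ σ (0 + t) - φ₁ σ 0) - v) ?_ ?_
    · intro σ _
      exact (((h1 σ (0 + t)).sub (h1 σ 0)).const_smul _).sub (HD.id_smul v σ)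
    · intro σ hσ
      have hσ' : |σ - s| < δ := by
        refine lt_of_le_of_lt ?_ hh
        have := Set.abs_sub_left_of_mem_uIcc hσ
        simpa using this
      have h3 := seminorm_sub_le p hp (γ := fun τ => φ₁ σ τ - τ • v)
        (γ' := fun τ => φ₁₂ σ τ - v) (a := 0) (b := t) (C := ε / 2)
        (fun τ _ => (h12 σ τ).sub (HD.id_smul v τ)) (fun τ hτ => hb σ τ hσ' (by
          refine lt_of_le_of_lt ?_ ht
          have := Set.abs_sub_left_of_mem_uIcc hτ
          simpa using this))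
      have e : t⁻¹ • (φ₁ σ (0 + t) - φ₁ σ 0) - v =
          t⁻¹ • ((φ₁ σ t - t • v) - (φ₁ σ 0 - (0 : ℝ) • v)) := by
        rw [zero_add, zero_smul, sub_zero, sub_right_comm, smul_sub t⁻¹ (φ₁ σ t - φ₁ σ 0),
          smul_smul, inv_mul_cancel₀ ht0, one_smul]
      rw [e, map_smul_eq_mul, Real.norm_eq_abs, abs_inv]
      rw [sub_zero] at h3
      have hpos : 0 < |t| := abs_pos.2 ht0
      calc |t|⁻¹ * p (φ₁ σ t - t • v - (φ₁ σ 0 - (0 : ℝ) • v)) ≤ |t|⁻¹ * (ε / 2 * |t|) :=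
            mul_le_mul_of_nonneg_left h3 (by positivity)
        _ = ε / 2 := by field_simp
  have lim : Tendsto (fun t : ℝ => p ((t⁻¹ • (φ (s + h) (0 + t) - φ (s + h) 0) - (s + h) • v) -
        (t⁻¹ • (φ s (0 + t) - φ s 0) - s • v))) (𝓝[≠] 0)
      (𝓝 (p ((φ₂ (s + h) - (s + h) • v) - (φ₂ s - s • v)))) :=
    (hp.tendsto _).comp ((Tendsto.sub (h2 (s + h)) tendsto_const_nhds).sub
      (Tendsto.sub (h2 s) tendsto_const_nhds))
  have hle : p ((φ₂ (s + h) - (s + h) • v) - (φ₂ s - s • v)) ≤ ε / 2 * |s + h - s| := by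
    refine le_of_tendsto lim ?_
    filter_upwards [hsmall, self_mem_nhdsWithin] with t ht ht0
    exact step t ht0 ht
  have e : h⁻¹ • (φ₂ (s + h) - φ₂ s) - v =
      h⁻¹ • ((φ₂ (s + h) - (s + h) • v) - (φ₂ s - s • v)) := by
    have : (φ₂ (s + h) - (s + h) • v) - (φ₂ s - s • v) = (φ₂ (s + h) - φ₂ s) - h • v := by
      rw [add_smul]; abel
    rw [this, smul_sub h⁻¹ (φ₂ (s + h) - φ₂ s), smul_smul, inv_mul_cancel₀ hh0', one_smul]
  show p (h⁻¹ • (φ₂ (s + h) - φ₂ s) - v) < ε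
  rw [e, map_smul_eq_mul, Real.norm_eq_abs, abs_inv]
  rw [add_sub_cancel_left] at hle
  have hpos : 0 < |h| := abs_pos.2 hh0'
  calc |h|⁻¹ * p (φ₂ (s + h) - (s + h) • v - (φ₂ s - s • v)) ≤ |h|⁻¹ * (ε / 2 * |h|) :=
        mul_le_mul_of_nonneg_left hle (by positivity)
    _ = ε / 2 := by field_simp
    _ < ε := by linarith

end TVS

end Pool.Agent.BoltzM.BoltzC
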